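import Pool.Agent.V7H27.AK.Chart

/-!
# Coordinates which are algebraic of bounded degree
-/

set_option autoImplicit false

open MvPolynomial Finset

namespace Pool.Agent.V7H27.AK

variable {K : Type*} [Field K]

theorem totalDegree_pderiv_le {σ : Type*} (i : σ) (g : MvPolynomial σ K) :
    (pderiv i g).totalDegree ≤ g.totalDegree := by
  classical
  refine Finset.sup_le fun m hm => ?_
  rw [mem_support_iff, coeff_pderiv] at hm
  have h1 : m + Finsupp.single i 1 ∈ g.support := by
    rw [mem_support_iff]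
    exact left_ne_zero_of_mul hm
  refine le_trans ?_ (le_totalDegree h1)
  rw [Finsupp.sum_add_index' (fun _ => rfl) (fun _ _ _ => rfl)]
  exact Nat.le_add_right _ _

/-- the specialization `g (d, ·)` -/
noncomputable def spec {n : ℕ} (d : Fin n → K) : MvPolynomial (Fin n ⊕ Unit) K →ₐ[K] Polynomial K :=
  aeval (Sum.elim (fun i => Polynomial.C (d i)) fun _ => Polynomial.X)

theorem eval_spec {n : ℕ} (d : Fin n → K) (g : MvPolynomial (Fin n ⊕ Unit) K) (y : K) :
    (spec d g).eval y = eval (Sum.elim d fun _ => y) g := by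
  induction g using MvPolynomial.induction_on with
  | C r =>
    rw [spec, aeval_C, eval_C]
    exact Polynomial.eval_C
  | add P Q hP hQ => rw [map_add, Polynomial.eval_add, hP, hQ, map_add]
  | mul_X P i hP =>
    rw [map_mul, Polynomial.eval_mul, hP, map_mul, eval_X, spec, aeval_X]
    rcases i with i | i
    · simp
    · simp

theorem spec_pderiv {n : ℕ} (d : Fin n → K) (g : MvPolynomial (Fin n ⊕ Unit) K) :
    spec d (pderiv (Sum.inr ()) g) = Polynomial.derivative (spec d g) := by
  classical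
  induction g using MvPolynomial.induction_on with
  | C r =>
    rw [pderiv_C, map_zero, spec, aeval_C]
    exact Polynomial.derivative_C.symm
  | add P Q hP hQ => rw [map_add, map_add, hP, hQ, map_add, Polynomial.derivative_add]
  | mul_X P i hP =>
    rw [pderiv_mul, map_add, map_mul, map_mul, hP, map_mul, Polynomial.derivative_mul, pderiv_X]
    have h1 : spec d (X i) = Sum.elim (fun i => Polynomial.C (d i)) (fun _ => Polynomial.X) i := by
      rw [spec, aeval_X]
    rw [h1]
    rcases i with i | i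
    · simp
    · simp

theorem spec_pderiv_iterate {n : ℕ} (d : Fin n → K) (g : MvPolynomial (Fin n ⊕ Unit) K) (m : ℕ) :
    spec d ((pderiv (Sum.inr ()))^[m] g) = Polynomial.derivative^[m] (spec d g) := by
  induction m with
  | zero => rfl
  | succ m ih => rw [Function.iterate_succ_apply', Function.iterate_succ_apply', spec_pderiv, ih]

theorem natDegree_spec {n : ℕ} (d : Fin n → K) (g : MvPolynomial (Fin n ⊕ Unit) K) :
    (spec d g).natDegree ≤ g.totalDegree := by
  have h := aeval_natDegree_le g le_rfl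
    (Sum.elim (fun i => Polynomial.C (d i)) fun _ => Polynomial.X) (n := 1) (fun i => by
      rcases i with i | i
      · simp
      · exact Polynomial.natDegree_X_le)
  rwa [mul_one] at h

/-- the order of vanishing -/
theorem exists_order_poly [CharZero K] {k : ℕ} (q : Polynomial K) (hq0 : q ≠ 0) (hq : q.natDegree ≤ k)
    (y : K) (h0 : q.eval y = 0) :
    ∃ μ : Fin k, (Polynomial.derivative^[μ.1] q).eval y = 0 ∧
      (Polynomial.derivative^[μ.1 + 1] q).eval y ≠ 0 := by
  classical
  have hroot : q.IsRoot y := h0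
  have hm1 : 0 < q.rootMultiplicity y := (Polynomial.rootMultiplicity_pos hq0).2 hroot
  have hm2 : q.rootMultiplicity y ≤ k := by
    have h2 := Polynomial.count_roots q (a := y)
    have h3 : q.roots.count y ≤ Multiset.card q.roots := Multiset.count_le_card _ _
    have h4 := Polynomial.card_roots' q
    omega
  refine ⟨⟨q.rootMultiplicity y - 1, by omega⟩, ?_, ?_⟩
  · exact Polynomial.isRoot_iterate_derivative_of_lt_rootMultiplicity
      (show q.rootMultiplicity y - 1 < q.rootMultiplicity y by omega)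
  · have h2 : q.rootMultiplicity y - 1 + 1 = q.rootMultiplicity y := by omega
    show (Polynomial.derivative^[q.rootMultiplicity y - 1 + 1] q).eval y ≠ 0
    rw [h2]
    intro h3
    have h4 := Polynomial.lt_rootMultiplicity_of_isRoot_iterate_derivative (p := q) (t := y)
      (n := q.rootMultiplicity y) hq0 (fun m hm => by
        rcases hm.lt_or_eq with h5 | h5
        · exact Polynomial.isRoot_iterate_derivative_of_lt_rootMultiplicity h5
        · rw [h5]
          exact h3)
    exact lt_irrefl _ h4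

/-- the order of vanishing -/
theorem exists_order [CharZero K] {n k : ℕ} (d : Fin n → K) (g : MvPolynomial (Fin n ⊕ Unit) K)
    (hg : g.totalDegree ≤ k) (y : K) (h0 : eval (Sum.elim d fun _ => y) g = 0)
    (h1 : ∃ u, eval (Sum.elim d fun _ => u) g ≠ 0) :
    ∃ μ : Fin k, eval (Sum.elim d fun _ => y) ((pderiv (Sum.inr ()))^[μ.1] g) = 0 ∧
      eval (Sum.elim d fun _ => y) (pderiv (Sum.inr ()) ((pderiv (Sum.inr ()))^[μ.1] g)) ≠ 0 := by
  obtain ⟨u, hu⟩ := h1
  rw [← eval_spec] at h0 hu
  have hq0 : spec d g ≠ 0 := by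
    intro h
    rw [h, Polynomial.eval_zero] at hu
    exact hu rfl
  obtain ⟨μ, hμ1, hμ2⟩ := exists_order_poly (spec d g) hq0 ((natDegree_spec d g).trans hg) y h0
  refine ⟨μ, ?_, ?_⟩
  · rw [← eval_spec, spec_pderiv_iterate]
    exact hμ1
  · rw [← Function.iterate_succ_apply' (f := pderiv (Sum.inr ())), ← eval_spec, spec_pderiv_iterate]
    exact hμ2

theorem totalDegree_iterate_pderiv_le {σ : Type*} (i : σ) (g : MvPolynomial σ K) (m : ℕ) :
    ((pderiv i)^[m] g).totalDegree ≤ g.totalDegree := by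
  induction m with
  | zero => exact le_rfl
  | succ m ih =>
    rw [Function.iterate_succ_apply']
    exact (totalDegree_pderiv_le _ _).trans ih

theorem dd_mul {σ : Type*} [Fintype σ] (f g : MvPolynomial σ K) (z w : σ → K) :
    dd (f * g) z w = dd f z w * eval z g + eval z f * dd g z w := by
  simp only [dd, pderiv_mul, map_add, map_mul, add_mul, sum_add_distrib, sum_mul, mul_sum]
  congr 1
  · exact sum_congr rfl fun i _ => by ring
  · exact sum_congr rfl fun i _ => by ring

/-- the chain rule for a substitution of variables -/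
theorem dd_rename {σ τ : Type*} [Fintype σ] [Fintype τ] (h : σ → τ) (f : MvPolynomial σ K)
    (z w : τ → K) : dd (rename h f) z w = dd f (z ∘ h) (w ∘ h) := by
  induction f using MvPolynomial.induction_on with
  | C r => rw [rename_C, dd_C, dd_C]
  | add P Q hP hQ => rw [map_add, dd_add, dd_add, hP, hQ]
  | mul_X P i hP =>
    rw [map_mul, rename_X, dd_mul, dd_mul, hP, dd_X, dd_X, eval_rename, eval_X, eval_X]
    rfl

/-- the system for the orders `μ` -/
noncomputable def sysμ {N M k : ℕ} (g : Fin M → MvPolynomial (Fin N ⊕ Unit) K) (μ : Fin M → Fin k)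
    (j : Fin M) : MvPolynomial (Fin N ⊕ Fin M) K :=
  rename (Sum.map id fun _ => j) ((pderiv (Sum.inr ()))^[(μ j).1] (g j))

theorem totalDegree_sysμ {N M k : ℕ} (g : Fin M → MvPolynomial (Fin N ⊕ Unit) K)
    (hg : ∀ j, (g j).totalDegree ≤ k) (μ : Fin M → Fin k) (j : Fin M) :
    (sysμ g μ j).totalDegree ≤ k :=
  (totalDegree_rename_le _ _).trans ((totalDegree_iterate_pderiv_le _ _ _).trans (hg j))

omit [Field K] in
theorem comp_map {N M : ℕ} (z : Fin N ⊕ Fin M → K) (j : Fin M) :
    z ∘ (Sum.map id fun _ : Unit => j) = Sum.elim (fun i => z (Sum.inl i)) fun _ => z (Sum.inr j) := by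
  funext i
  rcases i with i | i <;> rfl

theorem sysμ_a {N M k : ℕ} (g : Fin M → MvPolynomial (Fin N ⊕ Unit) K) (μ : Fin M → Fin k)
    (z : Fin N ⊕ Fin M → K)
    (h : ∀ j, eval (Sum.elim (fun i => z (Sum.inl i)) fun _ => z (Sum.inr j))
      (pderiv (Sum.inr ()) ((pderiv (Sum.inr ()))^[(μ j).1] (g j))) ≠ 0)
    (w : Fin N ⊕ Fin M → K) (hw : ∀ j, dd (sysμ g μ j) z w = 0) (hw0 : ∀ i, w (Sum.inl i) = 0) :
    w = 0 := by
  funext i
  rcases i with i | j
  · exact hw0 i
  · have h1 := hw j
    rw [sysμ, dd_rename, comp_map, comp_map, dd, Fintype.sum_sum_type] at h1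
    simp only [Sum.elim_inl, Sum.elim_inr, hw0, mul_zero, sum_const_zero, zero_add,
      univ_unique, sum_singleton] at h1
    exact (mul_eq_zero.1 h1).resolve_left (h j)

variable [DecidableEq K]

/-- families -/
theorem card_le_fam [Infinite K] {n N M h k B : ℕ} (hh : 1 ≤ h) (hk : 1 ≤ k) (hB1 : 1 ≤ B)
    {ι : Type*} [Fintype ι]
    (G : ι → Fin M → MvPolynomial (Fin N ⊕ Fin M) K)
    (P Q : Fin n → MvPolynomial (Fin N ⊕ Fin M) K)
    (hG : ∀ l j, (G l j).totalDegree ≤ k) (hP : ∀ j, (P j).totalDegree ≤ h)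
    (hQ : ∀ j, (Q j).totalDegree ≤ h) (S : Finset K) (hS : (-1 : K) ∉ S) (hS1 : S.Nonempty)
    (A : Finset (Fin N ⊕ Fin M → K))
    (h0 : ∀ z ∈ A, ∃ l, (∀ j, eval z (G l j) = 0) ∧
      (∀ w : Fin N ⊕ Fin M → K, (∀ j, dd (G l j) z w = 0) → (∀ i, w (Sum.inl i) = 0) → w = 0) ∧
      ∀ w : Fin N ⊕ Fin M → K, (∀ j, dd (G l j) z w = 0) → (∀ i, dd (P i - Q i) z w = 0) → w = 0)
    (hB : ∀ i, (A.image fun z => z (Sum.inl i)).card ≤ B) :
    Bound S N B (Fintype.card ι * (h ^ N * k ^ M)) A.card
      (fun r => (A.image fun z i => eval z (P i) + r * eval z (Q i)).card) := by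
  classical
  rcases A.eq_empty_or_nonempty with hA | ⟨p0, hp0⟩
  · obtain ⟨t, ht⟩ := hS1
    refine ⟨⟨t, ht, ?_⟩, ?_⟩
    · rw [hA, card_empty]
      exact Nat.zero_le _
    · rw [hA, card_empty, zero_pow (card_pos.2 ⟨t, ht⟩).ne']
      exact Nat.zero_le _
  have hne : Nonempty ι := ⟨(h0 p0 hp0).choose⟩
  choose! l hl1 hl2 hl3 using h0
  obtain ⟨l0, -, hl0⟩ : ∃ l0 ∈ (univ : Finset ι),
      A.card ≤ Fintype.card ι * (A.filter fun p => l p = l0).card := by
    by_contra hc
    push Not at hc
    have h2 : A.card = ∑ l0, (A.filter fun p => l p = l0).card :=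
      card_eq_sum_card_fiberwise fun p _ => mem_univ _
    have h3 : ∑ l0, Fintype.card ι * (A.filter fun p => l p = l0).card < ∑ _l0 : ι, A.card :=
      sum_lt_sum_of_nonempty univ_nonempty hc
    rw [← mul_sum, ← h2, sum_const, smul_eq_mul, card_univ] at h3
    exact lt_irrefl _ h3
  have hsub : (A.filter fun p => l p = l0) ⊆ A := filter_subset _ _
  have h4 := card_le_chart hh hk hB1 (G l0) P Q (hG l0) hP hQ S hS hS1
    (A.filter fun p => l p = l0)
    (fun p hp => by
      rw [mem_filter] at hp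
      rw [← hp.2]
      exact hl1 p hp.1)
    (fun p hp => by
      rw [mem_filter] at hp
      rw [← hp.2]
      exact hl2 p hp.1)
    (fun p hp => by
      rw [mem_filter] at hp
      rw [← hp.2]
      exact hl3 p hp.1)
    (fun i => (card_le_card (image_subset_image hsub)).trans (hB i))
  exact h4.mono _ hl0 fun r _ => card_le_card (image_subset_image hsub)

/-- the algebraic version -/
theorem card_le_alg [CharZero K] {n N M h k B : ℕ} (hh : 1 ≤ h) (hk : 1 ≤ k) (hB1 : 1 ≤ B)
    (g : Fin M → MvPolynomial (Fin N ⊕ Unit) K) (D : Fin n → MvPolynomial (Fin N) K)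
    (Q : Fin n → MvPolynomial (Fin N ⊕ Fin M) K)
    (hg : ∀ j, (g j).totalDegree ≤ k) (hD : ∀ j, (D j).totalDegree ≤ h)
    (hQ : ∀ j, (Q j).totalDegree ≤ h) (S : Finset K) (hS : (-1 : K) ∉ S) (hS1 : S.Nonempty)
    (A : Finset (Fin N ⊕ Fin M → K))
    (h0 : ∀ z ∈ A, ∀ j, eval (Sum.elim (fun i => z (Sum.inl i)) fun _ => z (Sum.inr j)) (g j) = 0 ∧
      ∃ u, eval (Sum.elim (fun i => z (Sum.inl i)) fun _ => u) (g j) ≠ 0)
    (hDA : ∀ z ∈ A, ∀ a : Fin N → K, (∀ l, dd (D l) (fun i => z (Sum.inl i)) a = 0) → a = 0)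
    (hB : ∀ i, (A.image fun z => z (Sum.inl i)).card ≤ B) :
    Bound S N B (h ^ N * k ^ (2 * M)) A.card
      (fun r => (A.image fun z i => (eval (fun i => z (Sum.inl i)) (D i) + eval z (Q i)) +
        r * eval z (Q i)).card) := by
  classical
  have hev : ∀ (z : Fin N ⊕ Fin M → K) l, eval z (rename Sum.inl (D l) + Q l) =
      eval (fun i => z (Sum.inl i)) (D l) + eval z (Q l) := by
    intro z l
    rw [map_add, eval_rename]
    rfl
  have h1 := card_le_fam hh hk hB1 (ι := Fin M → Fin k) (fun μ => sysμ g μ)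
    (fun l => rename Sum.inl (D l) + Q l) Q (fun μ => totalDegree_sysμ g hg μ)
    (fun l => (totalDegree_add _ _).trans (max_le ((totalDegree_rename_le _ _).trans (hD l)) (hQ l)))
    hQ S hS hS1 A (fun z hz => by
      choose μ hμ1 hμ2 using fun j => exists_order (fun i => z (Sum.inl i)) (g j) (hg j)
        (z (Sum.inr j)) (h0 z hz j).1 (h0 z hz j).2
      refine ⟨μ, fun j => ?_, fun w hw hw0 => sysμ_a g μ z hμ2 w hw hw0, fun w hw hw1 => ?_⟩
      · rw [sysμ, eval_rename, comp_map]
        exact hμ1 j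
      · refine sysμ_a g μ z hμ2 w hw fun i => ?_
        have h2 : (fun i => w (Sum.inl i)) = 0 := hDA z hz (fun i => w (Sum.inl i)) fun l => by
          have h3 := hw1 l
          rw [add_sub_cancel_right, dd_rename] at h3
          exact h3
        exact congrFun h2 i) hB
  simp only [hev] at h1
  rw [Fintype.card_fun, Fintype.card_fin, Fintype.card_fin] at h1
  have h2 : h ^ N * k ^ (2 * M) = k ^ M * (h ^ N * k ^ M) := by
    rw [two_mul, pow_add]
    ring
  rw [h2]
  exact h1

end Pool.Agent.V7H27.AK
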