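import Mathlib

/-!
# The number of nondegenerate zeros of a system of polynomials (Bezout)

An elementary proof by counting dimensions: if `h v` are polynomials with `h v w = δ v w` on the set
of the zeros, the products `h v ∏ φ_j ^ a_j` are linearly independent.
-/

set_option autoImplicit false

open MvPolynomial Finset

namespace Pool.Agent.V7H27.AK

section Count

variable {σ τ : Type*} [Fintype σ] [DecidableEq σ] [Fintype τ] [DecidableEq τ]

/-- the exponents of total degree at most `E` -/
def expo (σ : Type*) [Fintype σ] [DecidableEq σ] (E : ℕ) : Finset (σ → ℕ) :=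
  (Fintype.piFinset fun _ : σ => Finset.range (E + 1)).filter fun a => ∑ i, a i ≤ E

theorem mem_expo {E : ℕ} {a : σ → ℕ} : a ∈ expo σ E ↔ ∑ i, a i ≤ E := by
  simp only [expo, mem_filter, Fintype.mem_piFinset, mem_range]
  refine ⟨fun h => h.2, fun h => ⟨fun i => ?_, h⟩⟩
  have := single_le_sum (f := a) (fun _ _ => Nat.zero_le _) (mem_univ i)
  omega

theorem card_expo_le (E : ℕ) : (expo σ E).card ≤ (E + 1) ^ Fintype.card σ := by
  refine (card_filter_le _ _).trans ?_
  rw [Fintype.card_piFinset]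
  simp

/-- the exponents of weighted degree at most `E` -/
def wexpo (κ : τ → ℕ) (E : ℕ) : Finset (τ → ℕ) :=
  (Fintype.piFinset fun _ : τ => Finset.range (E + 1)).filter fun a => ∑ i, κ i * a i ≤ E

theorem card_expo_mul (κ : τ → ℕ) (hκ : ∀ j, 1 ≤ κ j) (E : ℕ) :
    (expo τ E).card ≤ (∏ j, κ j) * (wexpo κ E).card := by
  have h : (expo τ E).card ≤
      ((Fintype.piFinset fun j : τ => range (κ j)) ×ˢ wexpo κ E).card := by
    refine card_le_card_of_injOn (fun a => (fun i => a i % κ i, fun i => a i / κ i)) ?_ ?_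
    · intro a ha
      rw [mem_coe, mem_expo] at ha
      rw [mem_coe, mem_product]
      refine ⟨?_, ?_⟩
      · simp only [Fintype.mem_piFinset, mem_range]
        exact fun i => Nat.mod_lt _ (hκ i)
      · simp only [wexpo, mem_filter, Fintype.mem_piFinset, mem_range]
        refine ⟨fun i => ?_, (sum_le_sum fun i _ => Nat.mul_div_le _ _).trans ha⟩
        have h1 := single_le_sum (f := a) (fun _ _ => Nat.zero_le _) (mem_univ i)
        have h2 : a i / κ i ≤ a i := Nat.div_le_self _ _
        omega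
    · intro a _ b _ hab
      simp only [Prod.mk.injEq] at hab
      funext i
      have h1 := congrFun hab.1 i
      have h2 := congrFun hab.2 i
      rw [← Nat.div_add_mod (a i) (κ i), ← Nat.div_add_mod (b i) (κ i), h1, h2]
  rw [card_product, Fintype.card_piFinset] at h
  simpa using h

theorem card_expo_congr (e : τ ≃ σ) (E : ℕ) : (expo τ E).card = (expo σ E).card := by
  refine card_bij' (fun a _ => a ∘ e.symm) (fun a _ => a ∘ e) ?_ ?_ ?_ ?_
  · intro a ha
    rw [mem_expo] at ha ⊢
    rwa [Function.comp_def, Equiv.sum_comp e.symm a]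
  · intro a ha
    rw [mem_expo] at ha ⊢
    rwa [Function.comp_def, Equiv.sum_comp e a]
  · intro a _
    funext i
    simp
  · intro a _
    funext i
    simp

theorem growth (M n q H : ℕ) (N : ℕ → ℕ) (hN : ∀ E, N E ≤ (E + 1) ^ n) (h0 : 1 ≤ N 0)
    (h : ∀ E, M * N E ≤ q * N (E + H)) (hq : 1 ≤ q) : M ≤ q := by
  by_contra hc
  push Not at hc
  have h1 : ∀ j, M ^ j ≤ q ^ j * N (j * H) := by
    intro j
    induction j with
    | zero => simpa using h0
    | succ j ih =>
      calc M ^ (j + 1) = M * M ^ j := by ring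
        _ ≤ M * (q ^ j * N (j * H)) := Nat.mul_le_mul_left _ ih
        _ = q ^ j * (M * N (j * H)) := by ring
        _ ≤ q ^ j * (q * N (j * H + H)) := Nat.mul_le_mul_left _ (h _)
        _ = q ^ (j + 1) * N ((j + 1) * H) := by
          rw [show j * H + H = (j + 1) * H by ring]
          ring
  set r : ℝ := (M : ℝ) / q with hr
  have hq0 : (0 : ℝ) < q := by exact_mod_cast hq
  have hr1 : 1 < r := by
    rw [hr, one_lt_div hq0]
    exact_mod_cast hc
  have h2 : ∀ j : ℕ, r ^ j ≤ ((H : ℝ) + 1) ^ n * ((j : ℝ) + 1) ^ n := by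
    intro j
    have h3 : ((M ^ j : ℕ) : ℝ) ≤ ((q ^ j * (j * H + 1) ^ n : ℕ) : ℝ) := by
      exact_mod_cast (h1 j).trans (Nat.mul_le_mul_left _ (hN _))
    push_cast at h3
    rw [hr, div_pow, div_le_iff₀ (by positivity)]
    calc (M : ℝ) ^ j ≤ (q : ℝ) ^ j * ((j : ℝ) * H + 1) ^ n := h3
      _ ≤ (q : ℝ) ^ j * (((H : ℝ) + 1) * ((j : ℝ) + 1)) ^ n := by
        refine mul_le_mul_of_nonneg_left (pow_le_pow_left₀ (by positivity) ?_ n) (by positivity)
        have hj : (0 : ℝ) ≤ j := by positivity
        have hH : (0 : ℝ) ≤ H := by positivity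
        nlinarith
      _ = ((H : ℝ) + 1) ^ n * ((j : ℝ) + 1) ^ n * (q : ℝ) ^ j := by
        rw [mul_pow]
        ring
  have h4 := tendsto_pow_const_div_const_pow_of_one_lt n hr1
  have h5 := h4.eventually (gt_mem_nhds (show (0 : ℝ) < 1 / (r * ((H : ℝ) + 1) ^ n) by positivity))
  obtain ⟨j, hj, hj1⟩ := (h5.and (Filter.eventually_ge_atTop 1)).exists
  obtain ⟨i, rfl⟩ : ∃ i, j = i + 1 := ⟨j - 1, by omega⟩
  have h6 := h2 i
  rw [div_lt_div_iff₀ (by positivity) (by positivity)] at hj
  push_cast at hj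
  rw [one_mul, pow_succ r i] at hj
  have h7 : r * (((H : ℝ) + 1) ^ n * ((i : ℝ) + 1) ^ n) < r * r ^ i := by
    calc r * (((H : ℝ) + 1) ^ n * ((i : ℝ) + 1) ^ n) =
        ((i : ℝ) + 1) ^ n * (r * ((H : ℝ) + 1) ^ n) := by ring
      _ < r ^ i * r := hj
      _ = r * r ^ i := by ring
  have h8 : ((H : ℝ) + 1) ^ n * ((i : ℝ) + 1) ^ n < r ^ i := lt_of_mul_lt_mul_left h7 (by positivity)
  linarith

end Count

section Bez

variable {K : Type*} [Field K] [DecidableEq K] {σ τ : Type*} [Fintype σ] [DecidableEq σ] [Fintype τ] [DecidableEq τ]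

/-- the substitution `x = w + s u` -/
noncomputable def Th (w : σ → K) : MvPolynomial σ K →ₐ[K] Polynomial (MvPolynomial σ K) :=
  aeval fun i => Polynomial.C (C (w i)) + Polynomial.C (X i) * Polynomial.X

omit [Fintype σ] [DecidableEq σ] in
theorem Th_C (w : σ → K) (r : K) : Th w (C r) = Polynomial.C (C r) := by
  rw [Th, aeval_C]
  rfl

omit [Fintype σ] [DecidableEq σ] in
theorem Th_X (w : σ → K) (i : σ) : Th w (X i) =
    Polynomial.C (C (w i)) + Polynomial.C (X i) * Polynomial.X := by
  rw [Th, aeval_X]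

omit [Fintype σ] [DecidableEq σ] in
theorem Th_coeff_zero (w : σ → K) (P : MvPolynomial σ K) : (Th w P).coeff 0 = C (eval w P) := by
  induction P using MvPolynomial.induction_on with
  | C r => rw [Th_C, Polynomial.coeff_C_zero, eval_C]
  | add P Q hP hQ => rw [map_add, Polynomial.coeff_add, hP, hQ, map_add, C_add]
  | mul_X P i hP =>
    rw [map_mul, Polynomial.mul_coeff_zero, hP, Th_X, map_mul, C_mul, eval_X]
    simp

theorem Th_coeff_one (w : σ → K) (P : MvPolynomial σ K) :
    (Th w P).coeff 1 = ∑ i, C (eval w (pderiv i P)) * X i := by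
  induction P using MvPolynomial.induction_on with
  | C r =>
    rw [Th_C, Polynomial.coeff_C_ne_zero one_ne_zero]
    simp
  | add P Q hP hQ =>
    rw [map_add, Polynomial.coeff_add, hP, hQ, ← sum_add_distrib]
    refine sum_congr rfl fun i _ => ?_
    rw [map_add, map_add, C_add, add_mul]
  | mul_X P i hP =>
    rw [map_mul, Th_X, mul_add, ← mul_assoc, Polynomial.coeff_add, Polynomial.coeff_mul_C, hP,
      Polynomial.coeff_mul_X, Polynomial.coeff_mul_C, Th_coeff_zero]
    have h1 : ∀ j : σ, C (eval w (pderiv j (P * X i))) * X j =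
        C (eval w (pderiv j P)) * X j * C (w i) +
          (if i = j then C (eval w P) * X j else 0 : MvPolynomial σ K) := by
      intro j
      rw [pderiv_mul, map_add, map_mul, map_mul, eval_X, pderiv_X, C_add, C_mul, add_mul]
      congr 1
      · ring
      · by_cases hij : i = j
        · subst hij
          simp
        · rw [if_neg hij, Pi.single_eq_of_ne hij]
          simp
    rw [sum_congr rfl fun j _ => h1 j, sum_add_distrib, ← sum_mul, sum_ite_eq univ i]
    simp

/-- the linear part -/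
noncomputable def lin (M : Matrix τ σ K) (j : τ) : MvPolynomial σ K := ∑ i, C (M j i) * X i

/-- the Jacobian matrix -/
noncomputable def jac (φ : τ → MvPolynomial σ K) (z : σ → K) : Matrix τ σ K :=
  Matrix.of fun j i => eval z (pderiv i (φ j))

theorem Th_prod (φ : τ → MvPolynomial σ K) (z : σ → K) (hz : ∀ j, eval z (φ j) = 0) (a : τ → ℕ) :
    ∃ R : Polynomial (MvPolynomial σ K), Th z (∏ j, φ j ^ a j) = Polynomial.X ^ (∑ j, a j) * R ∧
      R.coeff 0 = ∏ j, lin (jac φ z) j ^ a j := by
  have h1 : ∀ j, ∃ ψ : Polynomial (MvPolynomial σ K), Th z (φ j) = Polynomial.X * ψ := by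
    intro j
    have h2 : (Th z (φ j)).coeff 0 = 0 := by rw [Th_coeff_zero, hz, C_0]
    exact Polynomial.X_dvd_iff.2 h2
  choose ψ hψ using h1
  refine ⟨∏ j, ψ j ^ a j, ?_, ?_⟩
  · rw [map_prod, ← prod_pow_eq_pow_sum, ← prod_mul_distrib]
    refine prod_congr rfl fun j _ => ?_
    rw [map_pow, hψ, mul_pow]
  · rw [Polynomial.coeff_zero_prod]
    refine prod_congr rfl fun j _ => ?_
    rw [Polynomial.coeff_zero_eq_eval_zero, Polynomial.eval_pow,
      ← Polynomial.coeff_zero_eq_eval_zero]
    congr 1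
    have h3 := Th_coeff_one z (φ j)
    rw [hψ, Polynomial.coeff_X_mul] at h3
    exact h3

theorem prod_X_pow (a : τ → ℕ) : (∏ j, (X j : MvPolynomial τ K) ^ a j) =
    monomial (Finsupp.equivFunOnFinite.symm a) 1 := by
  rw [monomial_eq, C_1, one_mul, Finsupp.prod_fintype _ _ fun _ => pow_zero _]
  rfl

/-- linear independence -/
theorem indep (φ : τ → MvPolynomial σ K) (Z : Finset (σ → K)) (hZ : ∀ z ∈ Z, ∀ j, eval z (φ j) = 0)
    (hN : ∀ z ∈ Z, ∃ N : Matrix σ τ K, jac φ z * N = 1) (h : (σ → K) → MvPolynomial σ K)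
    (hh : ∀ v ∈ Z, ∀ w ∈ Z, eval w (h v) = if v = w then 1 else 0) (U : Finset (τ → ℕ))
    (c : (σ → K) → (τ → ℕ) → K)
    (h0 : ∑ v ∈ Z, ∑ a ∈ U, C (c v a) * (h v * ∏ j, φ j ^ a j) = 0) :
    ∀ e, ∀ w ∈ Z, ∀ a ∈ U, ∑ j, a j = e → c w a = 0 := by
  intro e
  induction e using Nat.strong_induction_on with
  | _ e ih =>
    intro w hw a ha hae
    obtain ⟨N, hN⟩ := hN w hw
    choose R hR1 hR2 using fun a => Th_prod φ w (hZ w hw) a
    have h1 := congrArg (fun P => (Th w P).coeff e) h0
    simp only [map_sum, map_zero, Polynomial.coeff_zero, Polynomial.finset_sum_coeff] at h1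
    have h2 : ∀ v ∈ Z, ∀ b ∈ U,
        (Th w (C (c v b) * (h v * ∏ j, φ j ^ b j))).coeff e =
        if v = w then (if ∑ j, b j = e then C (c w b) * ∏ j, lin (jac φ w) j ^ b j else 0) else 0 := by
      intro v hv b hb
      rw [map_mul, map_mul, Th_C, Polynomial.coeff_C_mul, hR1]
      rcases lt_trichotomy (∑ j, b j) e with hlt | heq | hgt
      · rw [ih _ hlt v hv b hb rfl, C_0, zero_mul, if_neg hlt.ne]
        simp
      · rw [if_pos heq, ← mul_assoc, mul_comm (Th w (h v)), mul_assoc, heq,
          Polynomial.coeff_X_pow_mul', if_pos le_rfl, Nat.sub_self, Polynomial.mul_coeff_zero,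
          Th_coeff_zero, hh v hv w hw, hR2]
        by_cases hvw : v = w
        · rw [if_pos hvw, if_pos hvw, C_1, one_mul, hvw]
        · rw [if_neg hvw, if_neg hvw, C_0, zero_mul, mul_zero]
      · rw [← mul_assoc, mul_comm (Th w (h v)), mul_assoc, Polynomial.coeff_X_pow_mul',
          if_neg (by omega), mul_zero, if_neg hgt.ne']
        simp
    rw [sum_congr rfl fun v hv => sum_congr rfl fun b hb => h2 v hv b hb] at h1
    have h3 : ∑ b ∈ U,
        (if ∑ j, b j = e then C (c w b) * ∏ j, lin (jac φ w) j ^ b j else 0) = 0 := by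
      rw [sum_eq_single w (fun v _ hvw => by simp [hvw]) (fun h => absurd hw h)] at h1
      simpa using h1
    -- the inverse substitution
    set ρ : MvPolynomial σ K →ₐ[K] MvPolynomial τ K := aeval fun i => ∑ j, C (N i j) * X j with hρ
    have hρl : ∀ j, ρ (lin (jac φ w) j) = X j := by
      intro j
      rw [lin, map_sum]
      have h4 : ∀ i, ρ (C (jac φ w j i) * X i) = ∑ l, C (jac φ w j i * N i l) * X l := by
        intro i
        rw [map_mul, hρ, aeval_C, aeval_X, mul_sum]
        refine sum_congr rfl fun l _ => ?_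
        rw [C_mul, mul_assoc]
        rfl
      rw [sum_congr rfl fun i _ => h4 i, sum_comm]
      have h5 : ∀ l, ∑ i, C (jac φ w j i * N i l) * (X l : MvPolynomial τ K) =
          if j = l then X l else 0 := by
        intro l
        rw [← sum_mul, ← map_sum]
        have h6 : ∑ i, jac φ w j i * N i l = (1 : Matrix τ τ K) j l := by
          rw [← hN, Matrix.mul_apply]
        rw [h6, Matrix.one_apply]
        by_cases hjl : j = l
        · rw [if_pos hjl, if_pos hjl, C_1, one_mul]
        · rw [if_neg hjl, if_neg hjl, C_0, zero_mul]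
      rw [sum_congr rfl fun l _ => h5 l, sum_ite_eq univ j]
      simp
    have h7 := congrArg ρ h3
    rw [map_sum, map_zero] at h7
    have h8 : ∀ b ∈ U,
        ρ (if ∑ j, b j = e then C (c w b) * ∏ j, lin (jac φ w) j ^ b j else 0) =
        if ∑ j, b j = e then monomial (Finsupp.equivFunOnFinite.symm b) (c w b) else 0 := by
      intro b _
      by_cases hb : ∑ j, b j = e
      · rw [if_pos hb, if_pos hb, map_mul, map_prod]
        have h9 : ∏ j, ρ (lin (jac φ w) j ^ b j) = ∏ j, (X j : MvPolynomial τ K) ^ b j :=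
          prod_congr rfl fun j _ => by rw [map_pow, hρl]
        rw [h9, prod_X_pow, hρ, aeval_C]
        show C (c w b) * _ = _
        rw [C_mul_monomial, mul_one]
      · rw [if_neg hb, if_neg hb, map_zero]
    rw [sum_congr rfl h8] at h7
    have h10 := congrArg (coeff (Finsupp.equivFunOnFinite.symm a)) h7
    rw [coeff_sum, coeff_zero, sum_eq_single a] at h10
    · rwa [if_pos hae, coeff_monomial, if_pos rfl] at h10
    · intro b _ hba
      split_ifs with hb
      · rw [coeff_monomial, if_neg]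
        intro h11
        exact hba (Finsupp.equivFunOnFinite.symm.injective h11)
      · rw [coeff_zero]
    · intro h11
      exact absurd ha h11

/-- interpolation -/
theorem exists_interp (Z : Finset (σ → K)) (v : σ → K) :
    ∃ h : MvPolynomial σ K, eval v h = 1 ∧ ∀ w ∈ Z, w ≠ v → eval w h = 0 := by
  induction Z using Finset.induction_on with
  | empty => exact ⟨1, by simp, by simp⟩
  | insert u Z _ ih =>
    obtain ⟨h, h1, h2⟩ := ih
    by_cases huv : u = v
    · refine ⟨h, h1, fun w hw hwv => ?_⟩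
      rcases mem_insert.1 hw with h3 | h3
      · exact absurd (h3.trans huv) hwv
      · exact h2 w h3 hwv
    · obtain ⟨i, hi⟩ := Function.ne_iff.1 huv
      have hi' : v i - u i ≠ 0 := sub_ne_zero.2 (Ne.symm hi)
      refine ⟨h * (C (v i - u i)⁻¹ * (X i - C (u i))), ?_, fun w hw hwv => ?_⟩
      · simp [h1, hi']
      · rcases mem_insert.1 hw with h3 | h3
        · subst h3
          simp
        · rw [map_mul, h2 w h3 hwv, zero_mul]

/-- **Bezout** for nondegenerate zeros -/
theorem card_zeros_le (e : τ ≃ σ) (κ : τ → ℕ) (hκ : ∀ j, 1 ≤ κ j) (φ : τ → MvPolynomial σ K)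
    (hφ : ∀ j, (φ j).totalDegree ≤ κ j) (Z : Finset (σ → K)) (hZ : ∀ z ∈ Z, ∀ j, eval z (φ j) = 0)
    (hN : ∀ z ∈ Z, ∃ N : Matrix σ τ K, jac φ z * N = 1) : Z.card ≤ ∏ j, κ j := by
  classical
  choose h hh1 hh2 using fun v => exists_interp (K := K) Z v
  have hh : ∀ v ∈ Z, ∀ w ∈ Z, eval w (h v) = if v = w then 1 else 0 := by
    intro v _ w hw
    by_cases hvw : v = w
    · rw [if_pos hvw, ← hvw, hh1]
    · rw [if_neg hvw, hh2 v w hw (Ne.symm hvw)]
  set H := Z.sup fun v => (h v).totalDegree with hH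
  refine growth Z.card (Fintype.card σ) (∏ j, κ j) H (fun E => (expo σ E).card)
    card_expo_le ?_ (fun E => ?_) (Nat.one_le_iff_ne_zero.2
      (prod_ne_zero_iff.2 fun j _ => Nat.one_le_iff_ne_zero.1 (hκ j)))
  · exact card_pos.2 ⟨fun _ => 0, mem_expo.2 (by simp)⟩
  suffices hmain : Z.card * (wexpo κ E).card ≤ (expo σ (E + H)).card by
    calc Z.card * (expo σ E).card = Z.card * (expo τ E).card := by rw [card_expo_congr e E]
      _ ≤ Z.card * ((∏ j, κ j) * (wexpo κ E).card) := Nat.mul_le_mul_left _ (card_expo_mul κ hκ E)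
      _ = (∏ j, κ j) * (Z.card * (wexpo κ E).card) := by ring
      _ ≤ (∏ j, κ j) * (expo σ (E + H)).card := Nat.mul_le_mul_left _ hmain
  set vec : {v // v ∈ Z} × {a // a ∈ wexpo κ E} → ({b // b ∈ expo σ (E + H)} → K) :=
    fun p b => coeff (Finsupp.equivFunOnFinite.symm b.1) (h p.1.1 * ∏ j, φ j ^ p.2.1 j) with hvec
  have hli : LinearIndependent K vec := by
    rw [Fintype.linearIndependent_iff]
    intro g hg
    set c : (σ → K) → (τ → ℕ) → K := fun v a =>
      if hv : v ∈ Z ∧ a ∈ wexpo κ E then g (⟨v, hv.1⟩, ⟨a, hv.2⟩) else 0 with hc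
    set P : MvPolynomial σ K :=
      ∑ v ∈ Z, ∑ a ∈ wexpo κ E, C (c v a) * (h v * ∏ j, φ j ^ a j) with hP
    have hPdeg : P.totalDegree ≤ E + H := by
      refine totalDegree_finsetSum_le fun v hv => totalDegree_finsetSum_le fun a ha => ?_
      refine (totalDegree_mul _ _).trans ?_
      rw [totalDegree_C, zero_add]
      refine (totalDegree_mul _ _).trans ?_
      rw [add_comm]
      refine add_le_add ?_ (le_sup (f := fun v => (h v).totalDegree) hv)
      refine (totalDegree_finsetProd _ _).trans ?_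
      calc ∑ j, (φ j ^ a j).totalDegree ≤ ∑ j, a j * κ j :=
            sum_le_sum fun j _ => (totalDegree_pow _ _).trans (Nat.mul_le_mul_left _ (hφ j))
        _ = ∑ j, κ j * a j := sum_congr rfl fun j _ => mul_comm _ _
        _ ≤ E := (mem_filter.1 ha).2
    have hsum : ∀ b : {b // b ∈ expo σ (E + H)},
        coeff (Finsupp.equivFunOnFinite.symm b.1) P = 0 := by
      intro b
      have h1 := congrFun hg b
      rw [Finset.sum_apply] at h1
      rw [hP, coeff_sum, ← sum_attach]
      simp only [Pi.smul_apply, Pi.zero_apply, smul_eq_mul, hvec] at h1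
      rw [Fintype.sum_prod_type] at h1
      rw [← h1, univ_eq_attach]
      refine sum_congr rfl fun v _ => ?_
      rw [coeff_sum, ← sum_attach, univ_eq_attach]
      refine sum_congr rfl fun a _ => ?_
      rw [coeff_C_mul, hc]
      simp only [v.2, a.2, and_self, dif_pos]
    have hP0 : P = 0 := by
      ext m
      rw [coeff_zero]
      by_cases hm : m ∈ P.support
      · have h2 : ∑ i, m i ≤ E + H := by
          have h3 := (le_totalDegree hm).trans hPdeg
          rwa [Finsupp.sum_fintype _ _ fun _ => rfl] at h3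
        have h4 := hsum ⟨m, mem_expo.2 h2⟩
        simpa using h4
      · exact notMem_support_iff.1 hm
    intro p
    have h5 := indep φ Z hZ hN h hh (wexpo κ E) c hP0 _ p.1.1 p.1.2 p.2.1 p.2.2 rfl
    rw [hc] at h5
    simp only [p.1.2, p.2.2, and_self, dif_pos] at h5
    exact h5
  have h6 := hli.fintype_card_le_finrank
  rw [Module.finrank_fintype_fun_eq_card, Fintype.card_prod, Fintype.card_coe, Fintype.card_coe,
    Fintype.card_coe] at h6
  exact h6

end Bez

end Pool.Agent.V7H27.AK
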