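import Mathlib

/-!
# Linear algebra: eigenspaces and rows
-/

set_option autoImplicit false

open Finset Matrix

namespace Pool.Agent.V7H27.AK

variable {K : Type*} [Field K]

/-- the kernels of `1 + t J` for different `t ≠ 0` are independent -/
theorem sum_finrank_ker {V : Type*} [AddCommGroup V] [Module K V] [FiniteDimensional K V]
    (J : V →ₗ[K] V) (T : Finset K) (hT : ∀ t ∈ T, t ≠ 0) :
    ∑ t ∈ T, Module.finrank K (LinearMap.ker (1 + t • J : V →ₗ[K] V)) ≤ Module.finrank K V := by
  classical
  have h1 : iSupIndep (fun t : {t // t ∈ T} => Module.End.eigenspace J (-(t.1)⁻¹)) := by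
    refine (Module.End.eigenspaces_iSupIndep J).comp (f := fun t : {t // t ∈ T} => -(t.1)⁻¹) ?_
    intro a b hab
    have h2 : (a.1)⁻¹ = (b.1)⁻¹ := neg_injective hab
    exact Subtype.ext (inv_injective h2)
  have h2 : ∀ t : {t // t ∈ T}, LinearMap.ker (1 + t.1 • J : V →ₗ[K] V) =
      Module.End.eigenspace J (-(t.1)⁻¹) := by
    intro t
    have ht := hT t.1 t.2
    ext u
    rw [LinearMap.mem_ker, Module.End.mem_eigenspace_iff]
    simp only [LinearMap.add_apply, Module.End.one_apply, LinearMap.smul_apply]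
    constructor
    · intro h
      have h3 : t.1 • J u = -u := (neg_eq_of_add_eq_zero_right h).symm
      have h4 : J u = (t.1)⁻¹ • (t.1 • J u) := by rw [smul_smul, inv_mul_cancel₀ ht, one_smul]
      rw [h4, h3, neg_smul, smul_neg]
    · intro h
      rw [h, smul_smul, mul_neg, mul_inv_cancel₀ ht, neg_smul, one_smul, add_neg_cancel]
  rw [← sum_attach, ← univ_eq_attach]
  have h3 : ∑ t : {t // t ∈ T}, Module.finrank K (LinearMap.ker (1 + t.1 • J : V →ₗ[K] V)) =
      Module.finrank K (DirectSum {t // t ∈ T} fun t => Module.End.eigenspace J (-(t.1)⁻¹)) := by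
    rw [Module.finrank_directSum]
    exact sum_congr rfl fun t _ => by rw [h2 t]
  rw [h3]
  refine LinearMap.finrank_le_finrank_of_injective
    (f := DirectSum.coeLinearMap fun t : {t // t ∈ T} => Module.End.eigenspace J (-(t.1)⁻¹)) ?_
  exact h1.dfinsupp_lsum_injective

/-- rows of `A` and of the identity matrix -/
theorem exists_rows {n m : ℕ} (A : Matrix (Fin n) (Fin n) K)
    (hA : Module.finrank K (LinearMap.ker A.mulVecLin) ≤ m) :
    ∃ b : Finset (Fin n ⊕ Fin n), b.card = n ∧ (univ.filter fun i => Sum.inr i ∈ b).card ≤ m ∧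
      ∀ u : Fin n → K, (∀ i, Sum.inl i ∈ b → (A.mulVec u) i = 0) → (∀ i, Sum.inr i ∈ b → u i = 0) →
        u = 0 := by
  classical
  set ρ : Fin n ⊕ Fin n → (Fin n → K) := Sum.elim (fun i => A i) (fun i => Pi.single i 1) with hρ
  obtain ⟨b1, hb1, -, hs1, hi1⟩ := exists_linearIndepOn_extension (K := K) (v := ρ)
    (linearIndepOn_empty K ρ) (Set.empty_subset (Set.range Sum.inl : Set (Fin n ⊕ Fin n)))
  obtain ⟨b2, -, hb12, hs2, hi2⟩ := exists_linearIndepOn_extension hi1 (Set.subset_univ b1)
  have hcard : ∀ b : Set (Fin n ⊕ Fin n), LinearIndepOn K ρ b →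
      Module.finrank K (Submodule.span K (ρ '' b)) = b.toFinset.card := by
    intro b hb
    have h1 := finrank_span_eq_card (R := K) (b := fun x : b => ρ x) hb
    rw [← Set.image_eq_range] at h1
    rw [h1, Set.toFinset_card]
  have htop : Submodule.span K (ρ '' b2) = ⊤ := by
    rw [eq_top_iff]
    have h1 : (⊤ : Submodule K (Fin n → K)) = Submodule.span K (Set.range fun i : Fin n =>
        (Pi.single i 1 : Fin n → K)) := by
      have := (Pi.basisFun K (Fin n)).span_eq
      rw [← this]
      congr 2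
      funext i
      exact Pi.basisFun_apply K _ i
    rw [h1, Submodule.span_le]
    rintro _ ⟨i, rfl⟩
    exact hs2 ⟨Sum.inr i, Set.mem_univ _, rfl⟩
  have hc2 : b2.toFinset.card = n := by
    rw [← hcard b2 hi2, htop, finrank_top, Module.finrank_fin_fun]
  have hsp : Submodule.span K (ρ '' b1) = Submodule.span K (Set.range A.row) := by
    apply le_antisymm
    · rw [Submodule.span_le]
      rintro _ ⟨x, hx, rfl⟩
      obtain ⟨i, rfl⟩ := hb1 hx
      exact Submodule.subset_span ⟨i, rfl⟩
    · rw [Submodule.span_le]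
      rintro _ ⟨i, rfl⟩
      exact hs1 ⟨Sum.inl i, ⟨i, rfl⟩, rfl⟩
  have hc1 : n ≤ b1.toFinset.card + m := by
    have h1 := hcard b1 hi1
    rw [hsp, ← Matrix.rank_eq_finrank_span_row] at h1
    have h2 := LinearMap.finrank_range_add_finrank_ker A.mulVecLin
    rw [Module.finrank_fin_fun] at h2
    have h3 : A.rank = Module.finrank K (LinearMap.range A.mulVecLin) := rfl
    omega
  refine ⟨b2.toFinset, hc2, ?_, ?_⟩
  · have h1 : (univ.filter fun i : Fin n => Sum.inr i ∈ b2.toFinset).card + b1.toFinset.card ≤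
        b2.toFinset.card := by
      have h2 : ((univ.filter fun i : Fin n => (Sum.inr i : Fin n ⊕ Fin n) ∈ b2.toFinset).map
          Function.Embedding.inr) ∪ b1.toFinset ⊆ b2.toFinset := by
        intro x hx
        rcases mem_union.1 hx with h3 | h3
        · obtain ⟨i, hi, rfl⟩ := mem_map.1 h3
          exact (mem_filter.1 hi).2
        · rw [Set.mem_toFinset] at h3 ⊢
          exact hb12 h3
      have h4 := card_le_card h2
      rw [card_union_of_disjoint, card_map] at h4
      · exact h4
      · rw [disjoint_left]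
        intro x hx hx1
        obtain ⟨i, -, rfl⟩ := mem_map.1 hx
        obtain ⟨j, hj⟩ := hb1 (Set.mem_toFinset.1 hx1)
        cases hj
    omega
  · intro u h1 h2
    have h3 : ∀ v : Fin n → K, v ⬝ᵥ u = 0 := by
      intro v
      have h4 : v ∈ Submodule.span K (ρ '' b2) := by
        rw [htop]
        trivial
      induction h4 using Submodule.span_induction with
      | mem x hx =>
        obtain ⟨y, hy, rfl⟩ := hx
        rcases y with i | i
        · exact h1 i (Set.mem_toFinset.2 hy)
        · have h5 := h2 i (Set.mem_toFinset.2 hy)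
          rw [hρ]
          simp [h5]
      | zero => simp
      | add x y _ _ hx hy => rw [add_dotProduct, hx, hy, add_zero]
      | smul a x _ hx => rw [smul_dotProduct, hx, smul_zero]
    funext i
    have h4 := h3 (Pi.single i 1)
    simpa using h4

/-- a pencil of linear maps -/
theorem sum_finrank_ker_pencil {V : Type*} [AddCommGroup V] [Module K V] [FiniteDimensional K V]
    (D Y : V →ₗ[K] V) (hD : ∀ a, D a = 0 → a = 0) (S : Finset K) (hS : (-1 : K) ∉ S) :
    ∑ r ∈ S, Module.finrank K (LinearMap.ker (D + (1 + r) • Y : V →ₗ[K] V)) ≤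
      Module.finrank K V := by
  classical
  have hinj : Function.Injective D := by
    rw [← LinearMap.ker_eq_bot, LinearMap.ker_eq_bot']
    exact hD
  set e := LinearEquiv.ofInjectiveEndo D hinj with he
  have he1 : ∀ a, e a = D a := fun a => by rw [he]; rfl
  have hT0 : ∀ t ∈ S.image fun r => 1 + r, t ≠ 0 := by
    intro t ht h0
    obtain ⟨r, hr, rfl⟩ := mem_image.1 ht
    exact hS (by rwa [show (-1 : K) = r from (neg_eq_of_add_eq_zero_right h0)])
  have h := sum_finrank_ker (e.symm.toLinearMap ∘ₗ Y) (S.image fun r => 1 + r) hT0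
  rw [sum_image fun x _ y _ hxy => add_right_injective 1 hxy] at h
  refine le_trans (sum_le_sum fun r _ => Submodule.finrank_mono ?_) h
  intro a ha
  rw [LinearMap.mem_ker] at ha ⊢
  simp only [LinearMap.add_apply, LinearMap.smul_apply, Module.End.one_apply,
    LinearMap.comp_apply, LinearEquiv.coe_coe] at ha ⊢
  apply e.injective
  rw [map_add, map_smul, LinearEquiv.apply_symm_apply, map_zero, he1]
  exact ha

/-- a generic projection -/
theorem exists_proj [Infinite K] {ι : Type*} {n N : ℕ} (Z : Finset ι)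
    (W : ι → Matrix (Fin n) (Fin N) K) (hW : ∀ z ∈ Z, ∀ a, (W z).mulVec a = 0 → a = 0) :
    ∃ L : Matrix (Fin N) (Fin n) K, ∀ z ∈ Z, (L * W z).det ≠ 0 := by
  classical
  set f : ι → MvPolynomial (Fin N × Fin n) K := fun z =>
    (Matrix.of fun i j => ∑ l, MvPolynomial.X (i, l) * MvPolynomial.C (W z l j) :
      Matrix (Fin N) (Fin N) (MvPolynomial (Fin N × Fin n) K)).det with hf
  have hev : ∀ (L : Matrix (Fin N) (Fin n) K) (z : ι),
      MvPolynomial.eval (fun p => L p.1 p.2) (f z) = (L * W z).det := by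
    intro L z
    rw [hf]
    simp only
    rw [RingHom.map_det]
    congr 1
    ext i j
    simp [Matrix.mul_apply]
  have hne : ∀ z ∈ Z, f z ≠ 0 := by
    intro z hz h0
    have hinj : Function.Injective (W z).mulVecLin := by
      rw [← LinearMap.ker_eq_bot, LinearMap.ker_eq_bot']
      exact hW z hz
    obtain ⟨g, hg⟩ := (W z).mulVecLin.exists_leftInverse_of_injective
      (LinearMap.ker_eq_bot.2 hinj)
    have h1 : LinearMap.toMatrix' g * W z = 1 := by
      have h2 := congrArg LinearMap.toMatrix' hg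
      rw [LinearMap.toMatrix'_comp, LinearMap.toMatrix'_id] at h2
      rw [← h2]
      congr 1
      exact (LinearMap.toMatrix'_toLin' (W z)).symm
    have h3 := hev (LinearMap.toMatrix' g) z
    rw [h0, map_zero, h1, det_one] at h3
    exact zero_ne_one h3
  have hprod : ∏ z ∈ Z, f z ≠ 0 := prod_ne_zero_iff.2 hne
  obtain ⟨L, hL⟩ : ∃ L : Fin N × Fin n → K, MvPolynomial.eval L (∏ z ∈ Z, f z) ≠ 0 := by
    by_contra hc
    push Not at hc
    exact hprod (MvPolynomial.funext fun x => by rw [hc x, map_zero])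
  refine ⟨Matrix.of fun i j => L (i, j), fun z hz => ?_⟩
  rw [← hev]
  rw [map_prod] at hL
  exact prod_ne_zero_iff.1 hL z hz

end Pool.Agent.V7H27.AK
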