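import Mathlib

/-!
# Weights and the inequality of Hölder
-/

set_option autoImplicit false

open Finset

namespace Pool.Agent.V7H27.AK

/-- the two bounds, for the number `a` of points, the sizes `π r` of the projections and the loss `L` -/
def Bound {K : Type*} (S : Finset K) (N B L a : ℕ) (π : K → ℕ) : Prop :=
  (∃ r ∈ S, a ≤ S.card * (4 ^ N * L) * B ^ (N / S.card) * π r) ∧
    a ^ S.card ≤ L ^ S.card * (9 * S.card ^ 2 * B) ^ N * ∏ r ∈ S, π r

theorem Bound.mono {K : Type*} {S : Finset K} {N B L a a' : ℕ} {π π' : K → ℕ}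
    (h : Bound S N B L a' π') (q : ℕ) (ha : a ≤ q * a') (hπ : ∀ r ∈ S, π' r ≤ π r) :
    Bound S N B (q * L) a π := by
  obtain ⟨⟨r, hr, h1⟩, h2⟩ := h
  refine ⟨⟨r, hr, ?_⟩, ?_⟩
  · calc a ≤ q * a' := ha
      _ ≤ q * (S.card * (4 ^ N * L) * B ^ (N / S.card) * π' r) := Nat.mul_le_mul_left _ h1
      _ ≤ q * (S.card * (4 ^ N * L) * B ^ (N / S.card) * π r) :=
        Nat.mul_le_mul_left _ (Nat.mul_le_mul_left _ (hπ r hr))
      _ = S.card * (4 ^ N * (q * L)) * B ^ (N / S.card) * π r := by ring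
  · calc a ^ S.card ≤ (q * a') ^ S.card := Nat.pow_le_pow_left ha _
      _ = q ^ S.card * a' ^ S.card := mul_pow _ _ _
      _ ≤ q ^ S.card * (L ^ S.card * (9 * S.card ^ 2 * B) ^ N * ∏ r ∈ S, π' r) :=
        Nat.mul_le_mul_left _ h2
      _ ≤ q ^ S.card * (L ^ S.card * (9 * S.card ^ 2 * B) ^ N * ∏ r ∈ S, π r) :=
        Nat.mul_le_mul_left _ (Nat.mul_le_mul_left _ (prod_le_prod' hπ))
      _ = (q * L) ^ S.card * (9 * S.card ^ 2 * B) ^ N * ∏ r ∈ S, π r := by
        rw [mul_pow]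
        ring

/-- an inequality of Hölder's type -/
theorem holder_card {ι α : Type*} (S : Finset ι) (hS : S.Nonempty) (A : Finset α)
    (W : ι → α → ℝ) (T : ι → ℝ) (κ : ℝ) (hκ : 0 < κ) (hT : ∀ r ∈ S, 0 < T r)
    (hW : ∀ r ∈ S, ∀ z ∈ A, 0 ≤ W r z) (hWκ : ∀ z ∈ A, κ ≤ ∏ r ∈ S, W r z)
    (hsum : ∀ r ∈ S, ∑ z ∈ A, W r z ≤ T r) : (A.card : ℝ) ^ S.card * κ ≤ ∏ r ∈ S, T r := by
  classical
  set P := ∏ r ∈ S, T r with hP
  have hP0 : 0 < P := prod_pos hT
  have hs : 0 < S.card := card_pos.2 hS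
  have hs0 : (0 : ℝ) < S.card := by exact_mod_cast hs
  set g : ℝ := (κ / P) ^ (S.card : ℝ)⁻¹ with hg
  have hg0 : 0 < g := Real.rpow_pos_of_pos (div_pos hκ hP0) _
  have hgs : g ^ S.card = κ / P := by
    rw [hg, ← Real.rpow_natCast, ← Real.rpow_mul (div_pos hκ hP0).le, inv_mul_cancel₀ hs0.ne',
      Real.rpow_one]
  have h1 : ∀ z ∈ A, g ≤ (∑ r ∈ S, W r z / T r) / S.card := by
    intro z hz
    have h2 := Real.geom_mean_le_arith_mean S (fun _ => 1) (fun r => W r z / T r)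
      (fun _ _ => zero_le_one) (by simpa using hs) (fun r hr => div_nonneg (hW r hr z hz) (hT r hr).le)
    simp only [Real.rpow_one, sum_const, nsmul_eq_mul, mul_one, one_mul, prod_div_distrib] at h2
    refine le_trans ?_ h2
    rw [hg]
    refine Real.rpow_le_rpow (div_pos hκ hP0).le ?_ (inv_nonneg.2 hs0.le)
    exact div_le_div_of_nonneg_right (hWκ z hz) hP0.le
  have h3 : (A.card : ℝ) * g ≤ 1 := by
    calc (A.card : ℝ) * g = ∑ _z ∈ A, g := by rw [sum_const, nsmul_eq_mul]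
      _ ≤ ∑ z ∈ A, (∑ r ∈ S, W r z / T r) / S.card := sum_le_sum h1
      _ = (∑ r ∈ S, (∑ z ∈ A, W r z) / T r) / S.card := by
        rw [← sum_div, sum_comm]
        congr 1
        exact sum_congr rfl fun r _ => by rw [sum_div]
      _ ≤ (∑ _r ∈ S, (1 : ℝ)) / S.card := by
        refine div_le_div_of_nonneg_right (sum_le_sum fun r hr => ?_) hs0.le
        rw [div_le_one (hT r hr)]
        exact hsum r hr
      _ = 1 := by
        rw [sum_const, nsmul_eq_mul, mul_one, div_self hs0.ne']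
  have h4 : ((A.card : ℝ) * g) ^ S.card ≤ 1 := pow_le_one₀ (by positivity) h3
  rw [mul_pow, hgs] at h4
  rw [← mul_div_assoc, div_le_one hP0] at h4
  exact h4

/-- the weight of a set of rows -/
noncomputable def wt (s : ℝ) {N : ℕ} (b : Finset (Fin N ⊕ Fin N)) : ℝ :=
  (∏ x ∈ b, (Sum.elim (fun _ => s / (s + 1)) (fun _ => 1 / (s + 1)) x : ℝ)) *
    ∏ x ∈ univ \ b, (Sum.elim (fun _ => 1 / (s + 1)) (fun _ => s / (s + 1)) x : ℝ)

theorem wt_nonneg {s : ℝ} (hs : 0 < s) {N : ℕ} (b : Finset (Fin N ⊕ Fin N)) : 0 ≤ wt s b := by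
  refine mul_nonneg (prod_nonneg fun x _ => ?_) (prod_nonneg fun x _ => ?_)
  · rcases x with x | x
    · show 0 ≤ s / (s + 1)
      positivity
    · show 0 ≤ 1 / (s + 1)
      positivity
  · rcases x with x | x
    · show 0 ≤ 1 / (s + 1)
      positivity
    · show 0 ≤ s / (s + 1)
      positivity

theorem sum_wt {s : ℝ} (hs : 0 < s) (N : ℕ) : ∑ b : Finset (Fin N ⊕ Fin N), wt s b = 1 := by
  classical
  have h := prod_add (fun x : Fin N ⊕ Fin N =>
    (Sum.elim (fun _ => s / (s + 1)) (fun _ => 1 / (s + 1)) x : ℝ))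
    (fun x : Fin N ⊕ Fin N => (Sum.elim (fun _ => 1 / (s + 1)) (fun _ => s / (s + 1)) x : ℝ)) univ
  rw [powerset_univ] at h
  have h1 : ∑ b : Finset (Fin N ⊕ Fin N), wt s b = ∏ i : Fin N ⊕ Fin N,
      ((Sum.elim (fun _ => s / (s + 1)) (fun _ => 1 / (s + 1)) i : ℝ) +
      (Sum.elim (fun _ => 1 / (s + 1)) (fun _ => s / (s + 1)) i : ℝ)) := by
    rw [h]
    rfl
  rw [h1]
  refine prod_eq_one fun x _ => ?_
  rcases x with x | x
  · show s / (s + 1) + 1 / (s + 1) = 1
    rw [← add_div, div_self (by positivity)]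
  · show 1 / (s + 1) + s / (s + 1) = 1
    rw [← add_div, add_comm, div_self (by positivity)]

theorem wt_eq {s : ℝ} (hs : 0 < s) {N : ℕ} (b : Finset (Fin N ⊕ Fin N)) (hb : b.card = N) :
    wt s b = ((s / (s + 1)) ^ 2) ^ N * (1 / s ^ 2) ^ (univ.filter fun i => Sum.inr i ∈ b).card := by
  classical
  set m := (univ.filter fun i : Fin N => Sum.inr i ∈ b).card with hm
  set p := (univ.filter fun i : Fin N => Sum.inl i ∈ b).card with hp
  have hbsum : p + m = N := by
    have h1 : (univ.filter fun x : Fin N ⊕ Fin N => x ∈ b).card = p + m := by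
      rw [card_filter, Fintype.sum_sum_type, ← card_filter, ← card_filter]
    rw [filter_univ_mem] at h1
    omega
  have hwt : wt s b = ∏ x : Fin N ⊕ Fin N, if x ∈ b then
      (Sum.elim (fun _ => s / (s + 1)) (fun _ => 1 / (s + 1)) x : ℝ) else
      (Sum.elim (fun _ => 1 / (s + 1)) (fun _ => s / (s + 1)) x : ℝ) := by
    rw [prod_ite, wt]
    congr 1
    · rw [filter_univ_mem]
    · congr 1
      ext x
      simp
  rw [hwt, Fintype.prod_sum_type]
  simp only [Sum.elim_inl, Sum.elim_inr]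
  rw [prod_ite, prod_ite, prod_const, prod_const, prod_const, prod_const, ← hm, ← hp]
  have h3 : (univ.filter fun i : Fin N => ¬ Sum.inl i ∈ b).card = m := by
    have := card_filter_add_card_filter_not (s := (univ : Finset (Fin N)))
      (fun i => (Sum.inl i : Fin N ⊕ Fin N) ∈ b)
    rw [card_univ, Fintype.card_fin] at this
    omega
  have h4 : (univ.filter fun i : Fin N => ¬ Sum.inr i ∈ b).card = p := by
    have := card_filter_add_card_filter_not (s := (univ : Finset (Fin N)))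
      (fun i => (Sum.inr i : Fin N ⊕ Fin N) ∈ b)
    rw [card_univ, Fintype.card_fin] at this
    omega
  rw [h3, h4, ← hbsum, pow_add, ← pow_mul, ← pow_mul]
  have h5 : (1 / (s + 1)) = (s / (s + 1)) * (1 / s) := by
    field_simp
  have h6 : (1 / s ^ 2) ^ m = (1 / s) ^ m * (1 / s) ^ m := by
    rw [← mul_pow]
    congr 1
    field_simp
  rw [h6, h5, mul_pow]
  ring

/-- the lower bound for the product of the weights -/
theorem prod_wt_ge {K : Type*} (S : Finset K) (hS : S.Nonempty) {N B : ℕ} (hB : 1 ≤ B)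
    (b : K → Finset (Fin N ⊕ Fin N)) (hb : ∀ r ∈ S, (b r).card = N)
    (hm : ∑ r ∈ S, (univ.filter fun i => Sum.inr i ∈ b r).card ≤ N) :
    (1 / (9 * (S.card : ℝ) ^ 2 * B)) ^ N ≤
      ∏ r ∈ S, wt (S.card : ℝ) (b r) / (B : ℝ) ^ (univ.filter fun i => Sum.inr i ∈ b r).card := by
  classical
  set s : ℝ := (S.card : ℝ) with hs
  have hs1 : (1 : ℝ) ≤ s := by
    rw [hs]
    exact_mod_cast card_pos.2 hS
  have hs0 : 0 < s := by linarith
  have hB1 : (1 : ℝ) ≤ B := by exact_mod_cast hB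
  have hB0 : (0 : ℝ) < B := by linarith
  set β : ℝ := s / (s + 1) with hβ
  set ρ : ℝ := 1 / (s ^ 2 * B) with hρ
  have hρ0 : 0 < ρ := by positivity
  have hρ1 : ρ ≤ 1 := by
    rw [hρ, div_le_one (by positivity)]
    nlinarith
  have h1 : ∀ r ∈ S, wt s (b r) / (B : ℝ) ^ (univ.filter fun i => Sum.inr i ∈ b r).card =
      (β ^ 2) ^ N * ρ ^ (univ.filter fun i => Sum.inr i ∈ b r).card := by
    intro r hr
    rw [wt_eq hs0 (b r) (hb r hr), mul_div_assoc, ← div_pow, hρ, div_div]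
  rw [prod_congr rfl h1, prod_mul_distrib, prod_const, prod_pow_eq_pow_sum]
  have h2 : (1 / 9 : ℝ) ≤ (β ^ 2) ^ S.card := by
    have h3 : (1 + 1 / s) ^ S.card ≤ 3 := by
      calc (1 + 1 / s) ^ S.card ≤ (Real.exp (1 / s)) ^ S.card := by
            refine pow_le_pow_left₀ (by positivity) ?_ _
            have := Real.add_one_le_exp (1 / s)
            linarith
        _ = Real.exp 1 := by
            rw [← Real.exp_nat_mul, ← hs]
            congr 1
            field_simp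
        _ ≤ 3 := by
            have := Real.exp_one_lt_d9
            linarith
    have h4 : β = 1 / (1 + 1 / s) := by
      rw [hβ]
      field_simp
    have h5 : (β ^ 2) ^ S.card = 1 / ((1 + 1 / s) ^ S.card) ^ 2 := by
      rw [h4]
      rw [div_pow, div_pow, one_pow, one_pow, ← pow_mul, ← pow_mul, mul_comm 2]
    rw [h5]
    refine one_div_le_one_div_of_le (by positivity) ?_
    have h6 : (0 : ℝ) ≤ (1 + 1 / s) ^ S.card := by positivity
    nlinarith
  calc (1 / (9 * s ^ 2 * (B : ℝ))) ^ N = ((1 / 9) * ρ) ^ N := by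
        congr 1
        rw [hρ]
        field_simp
    _ ≤ ((β ^ 2) ^ S.card * ρ) ^ N := by
        refine pow_le_pow_left₀ (by positivity) (mul_le_mul_of_nonneg_right h2 hρ0.le) N
    _ = ((β ^ 2) ^ N) ^ S.card * ρ ^ N := by
        rw [mul_pow, ← pow_mul, ← pow_mul, mul_comm S.card N]
        ring
    _ ≤ ((β ^ 2) ^ N) ^ S.card * ρ ^ ∑ r ∈ S, (univ.filter fun i => Sum.inr i ∈ b r).card := by
        refine mul_le_mul_of_nonneg_left ?_ (by positivity)
        exact pow_le_pow_of_le_one hρ0.le hρ1 hm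

end Pool.Agent.V7H27.AK
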