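import Pool.Agent.V7H27.AK.Bez
import Pool.Agent.V7H27.AK.Lin
import Pool.Agent.V7H27.AK.Wt

/-!
# The count for charts

A point is a function `z` on `Fin N ⊕ Fin M`: the parameters `z (inl i)` and the auxiliary coordinates
`z (inr j)`, which satisfy `M` equations `G_j(z) = 0`.
-/

set_option autoImplicit false

open MvPolynomial Finset Matrix

namespace Pool.Agent.V7H27.AK

variable {K : Type*} [Field K]

/-- the derivative of `f` at `z` in the direction `w` -/
noncomputable def dd {σ : Type*} [Fintype σ] (f : MvPolynomial σ K) (z w : σ → K) : K :=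
  ∑ i, eval z (pderiv i f) * w i

theorem dd_add {σ : Type*} [Fintype σ] (f g : MvPolynomial σ K) (z w : σ → K) :
    dd (f + g) z w = dd f z w + dd g z w := by
  simp only [dd, map_add, add_mul, sum_add_distrib]

theorem dd_sub {σ : Type*} [Fintype σ] (f g : MvPolynomial σ K) (z w : σ → K) :
    dd (f - g) z w = dd f z w - dd g z w := by
  simp only [dd, map_sub, sub_mul, sum_sub_distrib]

theorem dd_C_mul {σ : Type*} [Fintype σ] (c : K) (f : MvPolynomial σ K) (z w : σ → K) :
    dd (C c * f) z w = c * dd f z w := by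
  simp only [dd, pderiv_C_mul, map_mul, eval_C, mul_sum, mul_assoc]

theorem dd_C {σ : Type*} [Fintype σ] (c : K) (z w : σ → K) :
    dd (C c : MvPolynomial σ K) z w = 0 := by
  simp only [dd, pderiv_C, map_zero, zero_mul, sum_const_zero]

theorem dd_X {σ : Type*} [Fintype σ] (i : σ) (z w : σ → K) :
    dd (X i : MvPolynomial σ K) z w = w i := by
  classical
  simp only [dd, pderiv_X]
  rw [sum_eq_single i]
  · simp
  · intro j _ hj
    rw [Pi.single_eq_of_ne (Ne.symm hj), map_zero, zero_mul]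
  · intro h
    exact absurd (mem_univ _) h

theorem dd_smul_right {σ : Type*} [Fintype σ] (f : MvPolynomial σ K) (z w : σ → K) (c : K) :
    dd f z (c • w) = c * dd f z w := by
  simp only [dd, Pi.smul_apply, smul_eq_mul, mul_sum]
  exact sum_congr rfl fun i _ => by ring

theorem dd_add_right {σ : Type*} [Fintype σ] (f : MvPolynomial σ K) (z w w' : σ → K) :
    dd f z (w + w') = dd f z w + dd f z w' := by
  simp only [dd, Pi.add_apply, mul_add, sum_add_distrib]

theorem dd_sum {σ : Type*} [Fintype σ] {ι : Type*} (s : Finset ι) (f : ι → MvPolynomial σ K)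
    (z w : σ → K) : dd (∑ l ∈ s, f l) z w = ∑ l ∈ s, dd (f l) z w := by
  simp only [dd, map_sum, sum_mul]
  exact sum_comm

/-- the system of equations -/
noncomputable def sys {N M : ℕ} (G : Fin M → MvPolynomial (Fin N ⊕ Fin M) K)
    (P Q : Fin N → MvPolynomial (Fin N ⊕ Fin M) K) (r : K)
    (b : Finset (Fin N ⊕ Fin N)) (z c : Fin N → K) :
    Fin M ⊕ {x // x ∈ b} → MvPolynomial (Fin N ⊕ Fin M) K :=
  Sum.elim G fun x => Sum.elim
    (fun i => P i + C r * Q i - C (z i))
    (fun i => X (Sum.inl i) - C (c i)) x.1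

theorem totalDegree_sys {N M h k : ℕ} (hh : 1 ≤ h) (G : Fin M → MvPolynomial (Fin N ⊕ Fin M) K)
    (P Q : Fin N → MvPolynomial (Fin N ⊕ Fin M) K)
    (hG : ∀ j, (G j).totalDegree ≤ k) (hP : ∀ j, (P j).totalDegree ≤ h)
    (hQ : ∀ j, (Q j).totalDegree ≤ h) (r : K) (b : Finset (Fin N ⊕ Fin N)) (z c : Fin N → K)
    (j : Fin M ⊕ {x // x ∈ b}) : (sys G P Q r b z c j).totalDegree ≤
      (Sum.elim (fun _ => k) (fun _ => h) j : ℕ) := by
  have hC : ∀ a : K, (C a : MvPolynomial (Fin N ⊕ Fin M) K).totalDegree ≤ h := by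
    intro a
    rw [totalDegree_C]
    omega
  rcases j with j | ⟨i | i, hi⟩
  · exact hG j
  · show (P i + C r * Q i - C (z i) : MvPolynomial (Fin N ⊕ Fin M) K).totalDegree ≤ h
    refine (totalDegree_sub _ _).trans (max_le ((totalDegree_add _ _).trans (max_le (hP _) ?_)) (hC _))
    refine (totalDegree_mul _ _).trans ?_
    rw [totalDegree_C, zero_add]
    exact hQ _
  · show (X (Sum.inl i) - C (c i) : MvPolynomial (Fin N ⊕ Fin M) K).totalDegree ≤ h
    exact (totalDegree_sub _ _).trans (max_le ((totalDegree_X _).le.trans hh) (hC _))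

/-- one fibre -/
theorem fibre_le [DecidableEq K] {N M h k : ℕ} (hh : 1 ≤ h) (hk : 1 ≤ k) (G : Fin M → MvPolynomial (Fin N ⊕ Fin M) K)
    (P Q : Fin N → MvPolynomial (Fin N ⊕ Fin M) K)
    (hG : ∀ j, (G j).totalDegree ≤ k) (hP : ∀ j, (P j).totalDegree ≤ h)
    (hQ : ∀ j, (Q j).totalDegree ≤ h) (r : K) (b : Finset (Fin N ⊕ Fin N)) (hb : b.card = N)
    (v c : Fin N → K) (F : Finset (Fin N ⊕ Fin M → K))
    (h0 : ∀ z ∈ F, ∀ j, eval z (G j) = 0)
    (h2 : ∀ z ∈ F, ∀ i, eval z (P i) + r * eval z (Q i) = v i)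
    (h3 : ∀ z ∈ F, ∀ i, Sum.inr i ∈ b → z (Sum.inl i) = c i)
    (h4 : ∀ z ∈ F, ∀ w : Fin N ⊕ Fin M → K, (∀ j, dd (G j) z w = 0) →
      (∀ i, Sum.inl i ∈ b → dd (P i) z w + r * dd (Q i) z w = 0) →
      (∀ i, Sum.inr i ∈ b → w (Sum.inl i) = 0) → w = 0) : F.card ≤ h ^ N * k ^ M := by
  classical
  have hcardτ : Fintype.card (Fin M ⊕ {x // x ∈ b}) = Fintype.card (Fin N ⊕ Fin M) := by
    simp [hb, add_comm]
  have e : (Fin M ⊕ {x // x ∈ b}) ≃ (Fin N ⊕ Fin M) := Fintype.equivOfCardEq hcardτ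
  have h5 := card_zeros_le e (Sum.elim (fun _ => k) (fun _ => h)) (by
      rintro (j | j)
      · exact hk
      · exact hh) (sys G P Q r b v c) (totalDegree_sys hh G P Q hG hP hQ r b v c) F ?_ ?_
  · refine h5.trans (le_of_eq ?_)
    rw [Fintype.prod_sum_type]
    simp only [Sum.elim_inl, Sum.elim_inr, prod_const, card_univ, Fintype.card_fin,
      Fintype.card_coe, hb]
    exact mul_comm _ _
  · intro z hz j
    rcases j with j | ⟨i | i, hi⟩
    · exact h0 z hz j
    · show eval z (P i + C r * Q i - C (v i)) = 0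
      simp only [map_sub, map_add, map_mul, eval_C]
      rw [h2 z hz i, sub_self]
    · show eval z (X (Sum.inl i) - C (c i)) = 0
      simp only [map_sub, eval_X, eval_C]
      rw [h3 z hz i hi, sub_self]
  · intro z hz
    rw [← mulVec_surjective_iff_exists_right_inverse]
    set A := jac (sys G P Q r b v c) z with hA
    have hinj : Function.Injective A.mulVecLin := by
      rw [← LinearMap.ker_eq_bot, LinearMap.ker_eq_bot']
      intro w hw
      rw [mulVecLin_apply] at hw
      have hw' : ∀ j, dd (sys G P Q r b v c j) z w = 0 := fun j => congrFun hw j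
      refine h4 z hz w (fun j => hw' (Sum.inl j)) (fun i hi => ?_) (fun i hi => ?_)
      · have h6 : dd (P i + C r * Q i - C (v i)) z w = 0 := hw' (Sum.inr ⟨Sum.inl i, hi⟩)
        rwa [dd_sub, dd_add, dd_C_mul, dd_C, sub_zero] at h6
      · have h6 : dd (X (Sum.inl i) - C (c i)) z w = 0 := hw' (Sum.inr ⟨Sum.inr i, hi⟩)
        rwa [dd_sub, dd_C, sub_zero, dd_X] at h6
    have hfr : Module.finrank K (Fin N ⊕ Fin M → K) =
        Module.finrank K (Fin M ⊕ {x // x ∈ b} → K) := by
      rw [Module.finrank_fintype_fun_eq_card, Module.finrank_fintype_fun_eq_card, hcardτ]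
    exact (LinearMap.injective_iff_surjective_of_finrank_eq_finrank hfr).1 hinj

/-- the tangent space is the image of a linear map `Φ`, a section of the projection to the
parameters -/
theorem exists_section {N M : ℕ} (G : Fin M → MvPolynomial (Fin N ⊕ Fin M) K) (z : Fin N ⊕ Fin M → K)
    (ha : ∀ w : Fin N ⊕ Fin M → K, (∀ j, dd (G j) z w = 0) → (∀ i, w (Sum.inl i) = 0) → w = 0) :
    ∃ Φ : (Fin N → K) →ₗ[K] (Fin N ⊕ Fin M → K), (∀ a i, Φ a (Sum.inl i) = a i) ∧
      (∀ a j, dd (G j) z (Φ a) = 0) ∧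
      ∀ w : Fin N ⊕ Fin M → K, (∀ j, dd (G j) z w = 0) → w = Φ fun i => w (Sum.inl i) := by
  classical
  set E : Matrix (Fin M) (Fin M) K := of fun j i => eval z (pderiv (Sum.inr i) (G j)) with hE
  set F : Matrix (Fin M) (Fin N) K := of fun j i => eval z (pderiv (Sum.inl i) (G j)) with hF
  have hdd : ∀ j (a : Fin N → K) (b : Fin M → K),
      dd (G j) z (Sum.elim a b) = F.mulVec a j + E.mulVec b j := by
    intro j a b
    rw [dd, Fintype.sum_sum_type]
    rfl
  have hEdet : IsUnit E.det := by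
    rw [isUnit_iff_ne_zero]
    intro h0
    obtain ⟨b, hb0, hb⟩ := exists_mulVec_eq_zero_iff.2 h0
    apply hb0
    have h1 := ha (Sum.elim 0 b) (fun j => by
      rw [hdd, mulVec_zero, hb]
      simp) (fun i => rfl)
    funext i
    exact congrFun h1 (Sum.inr i)
  refine ⟨{ toFun := fun a => Sum.elim a (-(E⁻¹.mulVec (F.mulVec a))),
            map_add' := ?_, map_smul' := ?_ }, fun a i => rfl, fun a j => ?_, fun w hw => ?_⟩
  · intro a b
    funext i
    rcases i with i | i
    · rfl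
    · show (-(E⁻¹.mulVec (F.mulVec (a + b)))) i = _
      rw [mulVec_add, mulVec_add, neg_add]
      rfl
  · intro c a
    funext i
    rcases i with i | i
    · rfl
    · show (-(E⁻¹.mulVec (F.mulVec (c • a)))) i = _
      rw [mulVec_smul, mulVec_smul, ← smul_neg]
      rfl
  · show dd (G j) z (Sum.elim a (-(E⁻¹.mulVec (F.mulVec a)))) = 0
    rw [hdd, mulVec_neg, mulVec_mulVec, mul_nonsing_inv _ hEdet, one_mulVec, Pi.neg_apply,
      add_neg_cancel]
  · set a : Fin N → K := fun i => w (Sum.inl i) with ha1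
    set b : Fin M → K := fun i => w (Sum.inr i) with hb1
    have hwab : w = Sum.elim a b := by
      funext i
      rcases i with i | i <;> rfl
    have h1 : E.mulVec b = -F.mulVec a := by
      funext j
      have h2 := hw j
      rw [hwab, hdd] at h2
      exact (neg_eq_of_add_eq_zero_right h2).symm
    have h3 : b = -(E⁻¹.mulVec (F.mulVec a)) := by
      have h4 := congrArg (E⁻¹).mulVec h1
      rwa [mulVec_mulVec, nonsing_inv_mul _ hEdet, one_mulVec, mulVec_neg] at h4
    show w = Sum.elim a (-(E⁻¹.mulVec (F.mulVec a)))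
    rw [← h3]
    exact hwab

/-- the derivative of a tuple of polynomials -/
noncomputable def ddl {σ : Type*} [Fintype σ] {n N : ℕ} (R : Fin n → MvPolynomial σ K) (z : σ → K)
    (Φ : (Fin N → K) →ₗ[K] (σ → K)) : (Fin N → K) →ₗ[K] (Fin n → K) where
  toFun a i := dd (R i) z (Φ a)
  map_add' a b := by
    funext i
    show dd (R i) z (Φ (a + b)) = _
    rw [map_add, dd_add_right]
    rfl
  map_smul' c a := by
    funext i
    show dd (R i) z (Φ (c • a)) = _
    rw [map_smul, dd_smul_right]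
    rfl

/-- for each point and each `r ∈ S` some `N` rows determine the tangent vector -/
theorem exists_b {N M : ℕ} (G : Fin M → MvPolynomial (Fin N ⊕ Fin M) K)
    (P Q : Fin N → MvPolynomial (Fin N ⊕ Fin M) K) (S : Finset K) (hS : (-1 : K) ∉ S)
    (z : Fin N ⊕ Fin M → K)
    (ha : ∀ w : Fin N ⊕ Fin M → K, (∀ j, dd (G j) z w = 0) → (∀ i, w (Sum.inl i) = 0) → w = 0)
    (hb : ∀ w : Fin N ⊕ Fin M → K, (∀ j, dd (G j) z w = 0) → (∀ i, dd (P i - Q i) z w = 0) → w = 0) :
    ∃ b : K → Finset (Fin N ⊕ Fin N), (∀ r, (b r).card = N) ∧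
      (∀ r, ∀ w : Fin N ⊕ Fin M → K, (∀ j, dd (G j) z w = 0) →
        (∀ i, Sum.inl i ∈ b r → dd (P i) z w + r * dd (Q i) z w = 0) →
        (∀ i, Sum.inr i ∈ b r → w (Sum.inl i) = 0) → w = 0) ∧
      ∑ r ∈ S, (univ.filter fun i => Sum.inr i ∈ b r).card ≤ N := by
  classical
  obtain ⟨Φ, hΦ1, hΦ2, hΦ3⟩ := exists_section G z ha
  set Dl := ddl (fun i => P i - Q i) z Φ with hDl
  set Yl := ddl Q z Φ with hYl
  have hsum := sum_finrank_ker_pencil Dl Yl (fun a h0 => by
    have h1 := hb (Φ a) (hΦ2 a) (fun i => congrFun h0 i)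
    funext i
    rw [← hΦ1 a i, h1]
    rfl) S hS
  rw [Module.finrank_fin_fun] at hsum
  have hlin : ∀ r : K, (LinearMap.toMatrix' (Dl + (1 + r) • Yl)).mulVecLin = Dl + (1 + r) • Yl :=
    fun r => Matrix.toLin'_toMatrix' _
  choose b hb1 hb2 hb3 using fun r : K => exists_rows (LinearMap.toMatrix' (Dl + (1 + r) • Yl)) le_rfl
  refine ⟨b, hb1, fun r w hw1 hw2 hw3 => ?_, ?_⟩
  · have hw := hΦ3 w hw1
    set a : Fin N → K := fun i => w (Sum.inl i) with ha1
    have ha0 : a = 0 := by
      refine hb3 r a (fun i hi => ?_) (fun i hi => hw3 i hi)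
      have h1 : (LinearMap.toMatrix' (Dl + (1 + r) • Yl)).mulVec a = (Dl + (1 + r) • Yl) a := by
        rw [← Matrix.toLin'_apply, Matrix.toLin'_toMatrix']
      rw [h1]
      show dd (P i - Q i) z (Φ a) + (1 + r) * dd (Q i) z (Φ a) = 0
      rw [← hw, dd_sub, ← hw2 i hi]
      ring
    rw [hw, ha0, map_zero]
  · refine le_trans (sum_le_sum fun r _ => ?_) hsum
    have h := hb2 r
    rwa [hlin r] at h

/-- one cell -/
theorem cell_le [DecidableEq K] {N M h k B : ℕ} (hh : 1 ≤ h) (hk : 1 ≤ k)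
    (G : Fin M → MvPolynomial (Fin N ⊕ Fin M) K)
    (P Q : Fin N → MvPolynomial (Fin N ⊕ Fin M) K)
    (hG : ∀ j, (G j).totalDegree ≤ k) (hP : ∀ j, (P j).totalDegree ≤ h)
    (hQ : ∀ j, (Q j).totalDegree ≤ h) (r : K) (b : Finset (Fin N ⊕ Fin N)) (hb : b.card = N)
    (v : Fin N → K) (F : Finset (Fin N ⊕ Fin M → K))
    (h0 : ∀ z ∈ F, ∀ j, eval z (G j) = 0)
    (h2 : ∀ z ∈ F, ∀ i, eval z (P i) + r * eval z (Q i) = v i)
    (hB : ∀ i, (F.image fun z => z (Sum.inl i)).card ≤ B)
    (h4 : ∀ z ∈ F, ∀ w : Fin N ⊕ Fin M → K, (∀ j, dd (G j) z w = 0) →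
      (∀ i, Sum.inl i ∈ b → dd (P i) z w + r * dd (Q i) z w = 0) →
      (∀ i, Sum.inr i ∈ b → w (Sum.inl i) = 0) → w = 0) :
    F.card ≤ h ^ N * k ^ M * B ^ (univ.filter fun i => Sum.inr i ∈ b).card := by
  classical
  set V : Fin N → Finset K := fun i => F.image fun z => z (Sum.inl i) with hV
  set f : (Fin N ⊕ Fin M → K) → (Fin N → K) := fun z i =>
    if Sum.inr i ∈ b then z (Sum.inl i) else 0 with hf
  set W : Finset (Fin N → K) := Fintype.piFinset fun i => if Sum.inr i ∈ b then V i else {0} with hW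
  have hmaps : ∀ z ∈ F, f z ∈ W := by
    intro z hz
    rw [hW, Fintype.mem_piFinset]
    intro i
    show (if Sum.inr i ∈ b then z (Sum.inl i) else 0) ∈ (if Sum.inr i ∈ b then V i else {0})
    by_cases hi : Sum.inr i ∈ b
    · rw [if_pos hi, if_pos hi]
      exact mem_image_of_mem _ hz
    · rw [if_neg hi, if_neg hi]
      exact mem_singleton_self _
  have hWcard : W.card ≤ B ^ (univ.filter fun i => Sum.inr i ∈ b).card := by
    rw [hW, Fintype.card_piFinset]
    have h3 : ∀ i ∈ (univ : Finset (Fin N)), (if Sum.inr i ∈ b then V i else {0}).card ≤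
        if Sum.inr i ∈ b then B else 1 := by
      intro i _
      by_cases hi : Sum.inr i ∈ b
      · rw [if_pos hi, if_pos hi]
        exact hB i
      · rw [if_neg hi, if_neg hi, card_singleton]
    refine (prod_le_prod' h3).trans ?_
    rw [prod_ite, prod_const_one, mul_one, prod_const]
  have hfib : ∀ c ∈ W, (F.filter fun z => f z = c).card ≤ h ^ N * k ^ M := by
    intro c _
    refine fibre_le hh hk G P Q hG hP hQ r b hb v c _ (fun z hz => h0 z (mem_filter.1 hz).1)
      (fun z hz => h2 z (mem_filter.1 hz).1) (fun z hz i hi => ?_)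
      (fun z hz => h4 z (mem_filter.1 hz).1)
    rw [← (mem_filter.1 hz).2]
    exact (if_pos hi).symm
  exact (card_le_mul_card_image_of_maps_to hmaps _ hfib).trans (Nat.mul_le_mul_left _ hWcard)

/-- the count -/
theorem card_le_sq [DecidableEq K] {N M h k B : ℕ} (hh : 1 ≤ h) (hk : 1 ≤ k) (hB1 : 1 ≤ B)
    (G : Fin M → MvPolynomial (Fin N ⊕ Fin M) K)
    (P Q : Fin N → MvPolynomial (Fin N ⊕ Fin M) K)
    (hG : ∀ j, (G j).totalDegree ≤ k) (hP : ∀ j, (P j).totalDegree ≤ h)
    (hQ : ∀ j, (Q j).totalDegree ≤ h) (S : Finset K) (hS : (-1 : K) ∉ S) (hS1 : S.Nonempty)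
    (A : Finset (Fin N ⊕ Fin M → K)) (h0 : ∀ z ∈ A, ∀ j, eval z (G j) = 0)
    (ha : ∀ z ∈ A, ∀ w : Fin N ⊕ Fin M → K, (∀ j, dd (G j) z w = 0) →
      (∀ i, w (Sum.inl i) = 0) → w = 0)
    (hb : ∀ z ∈ A, ∀ w : Fin N ⊕ Fin M → K, (∀ j, dd (G j) z w = 0) →
      (∀ i, dd (P i - Q i) z w = 0) → w = 0)
    (hB : ∀ i, (A.image fun z => z (Sum.inl i)).card ≤ B) :
    Bound S N B (h ^ N * k ^ M) A.card
      (fun r => (A.image fun z i => eval z (P i) + r * eval z (Q i)).card) := by
  classical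
  have hex := fun (z : Fin N ⊕ Fin M → K) (hz : z ∈ A) =>
    exists_b G P Q S hS z (ha z hz) (hb z hz)
  choose! b hb1 hb2 hb3 using hex
  set s := S.card with hs
  have hs0 : 0 < s := card_pos.2 hS1
  set m : Finset (Fin N ⊕ Fin N) → ℕ := fun b => (univ.filter fun i => Sum.inr i ∈ b).card with hm
  set π : K → Finset (Fin N → K) := fun r => A.image fun z i => eval z (P i) + r * eval z (Q i) with hπ
  have hcell : ∀ A' ⊆ A, ∀ r, ∀ x : Finset (Fin N ⊕ Fin N) × (Fin N → K),
      (A'.filter fun z => (b z r, fun i => eval z (P i) + r * eval z (Q i)) = x).card ≤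
        h ^ N * k ^ M * B ^ m x.1 := by
    rintro A' hA' r ⟨b₀, v⟩
    rcases (A'.filter fun z => (b z r, fun i => eval z (P i) + r * eval z (Q i)) =
      (b₀, v)).eq_empty_or_nonempty with he | ⟨q, hq⟩
    · rw [he, card_empty]
      exact Nat.zero_le _
    have hF : ∀ z ∈ A'.filter (fun z => (b z r, fun i => eval z (P i) + r * eval z (Q i)) = (b₀, v)),
        z ∈ A ∧ b z r = b₀ ∧ (fun i => eval z (P i) + r * eval z (Q i)) = v := by
      intro z hz
      rw [mem_filter, Prod.mk.injEq] at hz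
      exact ⟨hA' hz.1, hz.2.1, hz.2.2⟩
    refine cell_le hh hk G P Q hG hP hQ r b₀ ?_ v _ (fun z hz => h0 z (hF z hz).1)
      (fun z hz i => congrFun (hF z hz).2.2 i) (fun i => ?_) (fun z hz w hw1 hw2 hw3 => ?_)
    · rw [← (hF q hq).2.1]
      exact hb1 q (hF q hq).1 r
    · refine (card_le_card (image_subset_image fun z hz => ?_)).trans (hB i)
      exact (hF z hz).1
    · obtain ⟨hz1, hz2, -⟩ := hF z hz
      refine hb2 z hz1 r w hw1 ?_ ?_
      · rw [hz2]
        exact hw2
      · rw [hz2]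
        exact hw3
  constructor
  · -- one slope
    have hr1 : ∀ z ∈ A, ∃ r ∈ S, m (b z r) ≤ N / s := by
      intro z hz
      by_contra hc
      push Not at hc
      have h1 : ∀ r ∈ S, N / s + 1 ≤ m (b z r) := fun r hr => hc r hr
      have h2 := (sum_le_sum h1).trans (hb3 z hz)
      rw [sum_const, smul_eq_mul] at h2
      have h3 := Nat.lt_mul_div_succ N hs0
      rw [← hs] at h2
      omega
    choose! ρ hρ1 hρ2 using hr1
    obtain ⟨r, hr, hpr⟩ : ∃ r ∈ S, A.card ≤ s * (A.filter fun z => ρ z = r).card := by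
      by_contra hc
      push Not at hc
      have h2 : A.card = ∑ r ∈ S, (A.filter fun z => ρ z = r).card :=
        card_eq_sum_card_fiberwise fun z hz => hρ1 z hz
      have h3 : ∑ r ∈ S, s * (A.filter fun z => ρ z = r).card < ∑ r ∈ S, A.card :=
        sum_lt_sum_of_nonempty hS1 hc
      rw [← mul_sum, ← h2, sum_const, smul_eq_mul] at h3
      exact lt_irrefl _ h3
    refine ⟨r, hr, ?_⟩
    set A' := A.filter fun z => ρ z = r with hA'
    have hmaps : ∀ z ∈ A', (b z r, fun i => eval z (P i) + r * eval z (Q i)) ∈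
        (univ : Finset (Finset (Fin N ⊕ Fin N))) ×ˢ π r := by
      intro z hz
      exact mem_product.2 ⟨mem_univ _, mem_image_of_mem _ (mem_filter.1 hz).1⟩
    have hfib : ∀ x ∈ (univ : Finset (Finset (Fin N ⊕ Fin N))) ×ˢ π r,
        (A'.filter fun z => (b z r, fun i => eval z (P i) + r * eval z (Q i)) = x).card ≤
          h ^ N * k ^ M * B ^ (N / s) := by
      intro x _
      rcases (A'.filter fun z => (b z r, fun i => eval z (P i) + r * eval z (Q i)) =
        x).eq_empty_or_nonempty with he | ⟨q, hq⟩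
      · rw [he, card_empty]
        exact Nat.zero_le _
      refine (hcell A' (filter_subset _ _) r x).trans (Nat.mul_le_mul_left _
        (Nat.pow_le_pow_right hB1 ?_))
      rw [mem_filter, hA', mem_filter] at hq
      obtain ⟨⟨hq1, hq2⟩, hq3⟩ := hq
      rw [← hq3]
      show m (b q r) ≤ N / s
      rw [← hq2]
      exact hρ2 q hq1
    have h5 := card_le_mul_card_image_of_maps_to hmaps _ hfib
    rw [card_product, card_univ, Fintype.card_finset, Fintype.card_sum, Fintype.card_fin,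
      pow_add, ← mul_pow] at h5
    calc A.card ≤ s * A'.card := hpr
      _ ≤ s * (h ^ N * k ^ M * B ^ (N / s) * ((2 * 2) ^ N * (π r).card)) := Nat.mul_le_mul_left _ h5
      _ = s * (4 ^ N * (h ^ N * k ^ M)) * B ^ (N / s) * (π r).card := by
        norm_num
        ring
  · -- the geometric mean
    rcases A.eq_empty_or_nonempty with hA | hA
    · rw [hA, card_empty, zero_pow hs0.ne']
      exact Nat.zero_le _
    have hB1' : (1 : ℝ) ≤ B := by exact_mod_cast hB1
    have hB0 : (0 : ℝ) < B := by linarith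
    have hsR : (0 : ℝ) < (s : ℝ) := by exact_mod_cast hs0
    set L : ℕ := h ^ N * k ^ M with hL
    have hL0 : 0 < L := by positivity
    have hsum : ∀ r ∈ S, ∑ z ∈ A, wt (s : ℝ) (b z r) / (B : ℝ) ^ m (b z r) ≤
        (L : ℝ) * (π r).card := by
      intro r _
      have hmaps : ∀ z ∈ A, (b z r, fun i => eval z (P i) + r * eval z (Q i)) ∈
          (univ : Finset (Finset (Fin N ⊕ Fin N))) ×ˢ π r := by
        intro z hz
        exact mem_product.2 ⟨mem_univ _, mem_image_of_mem _ hz⟩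
      rw [← sum_fiberwise_of_maps_to hmaps]
      calc ∑ x ∈ (univ : Finset (Finset (Fin N ⊕ Fin N))) ×ˢ π r,
            ∑ z ∈ A.filter (fun z => (b z r, fun i => eval z (P i) + r * eval z (Q i)) = x),
              wt (s : ℝ) (b z r) / (B : ℝ) ^ m (b z r) ≤
          ∑ x ∈ (univ : Finset (Finset (Fin N ⊕ Fin N))) ×ˢ π r, (L : ℝ) * wt (s : ℝ) x.1 := by
            refine sum_le_sum fun x _ => ?_
            have h1 : ∀ z ∈ A.filter (fun z =>
                (b z r, fun i => eval z (P i) + r * eval z (Q i)) = x),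
                wt (s : ℝ) (b z r) / (B : ℝ) ^ m (b z r) = wt (s : ℝ) x.1 / (B : ℝ) ^ m x.1 := by
              intro z hz
              rw [← (mem_filter.1 hz).2]
            rw [sum_congr rfl h1, sum_const, nsmul_eq_mul]
            have h2 : ((A.filter (fun z =>
                (b z r, fun i => eval z (P i) + r * eval z (Q i)) = x)).card : ℝ) ≤
                (L : ℝ) * (B : ℝ) ^ m x.1 := by
              exact_mod_cast hcell A (Subset.refl _) r x
            calc ((A.filter (fun z =>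
                (b z r, fun i => eval z (P i) + r * eval z (Q i)) = x)).card : ℝ) *
                (wt (s : ℝ) x.1 / (B : ℝ) ^ m x.1) ≤
                ((L : ℝ) * (B : ℝ) ^ m x.1) * (wt (s : ℝ) x.1 / (B : ℝ) ^ m x.1) :=
                  mul_le_mul_of_nonneg_right h2 (div_nonneg (wt_nonneg hsR _) (by positivity))
              _ = (L : ℝ) * wt (s : ℝ) x.1 := by
                field_simp
        _ = (L : ℝ) * (π r).card := by
            rw [sum_product]
            simp only [sum_const, nsmul_eq_mul]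
            rw [← mul_sum, ← mul_sum, sum_wt hsR, mul_one, mul_comm]
    have hWκ : ∀ z ∈ A, (1 / (9 * (s : ℝ) ^ 2 * B)) ^ N ≤
        ∏ r ∈ S, wt (s : ℝ) (b z r) / (B : ℝ) ^ m (b z r) := fun z hz =>
      prod_wt_ge S hS1 hB1 (b z) (fun r _ => hb1 z hz r) (hb3 z hz)
    have h6 := holder_card S hS1 A (fun r z => wt (s : ℝ) (b z r) / (B : ℝ) ^ m (b z r))
      (fun r => (L : ℝ) * (π r).card) ((1 / (9 * (s : ℝ) ^ 2 * B)) ^ N) (by positivity)
      (fun r _ => by
        have h7 : 0 < (π r).card := card_pos.2 (hA.image _)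
        have h8 : (0 : ℝ) < (π r).card := by exact_mod_cast h7
        have h9 : (0 : ℝ) < (L : ℝ) := by exact_mod_cast hL0
        exact mul_pos h9 h8)
      (fun r _ z _ => div_nonneg (wt_nonneg hsR _) (by positivity)) hWκ hsum
    rw [prod_mul_distrib, prod_const, ← hs, one_div, inv_pow, ← div_eq_mul_inv,
      div_le_iff₀ (by positivity)] at h6
    have h10 : ((A.card ^ s : ℕ) : ℝ) ≤ ((L ^ s * (9 * s ^ 2 * B) ^ N * ∏ r ∈ S, (π r).card : ℕ) : ℝ) := by
      push_cast
      calc (A.card : ℝ) ^ s ≤ (L : ℝ) ^ s * (∏ r ∈ S, ((π r).card : ℝ)) *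
            (9 * (s : ℝ) ^ 2 * B) ^ N := h6
        _ = (L : ℝ) ^ s * (9 * (s : ℝ) ^ 2 * B) ^ N * ∏ r ∈ S, ((π r).card : ℝ) := by ring
    exact_mod_cast h10

/-- the count in any dimension -/
theorem card_le_chart [DecidableEq K] [Infinite K] {n N M h k B : ℕ} (hh : 1 ≤ h) (hk : 1 ≤ k)
    (hB1 : 1 ≤ B) (G : Fin M → MvPolynomial (Fin N ⊕ Fin M) K)
    (P Q : Fin n → MvPolynomial (Fin N ⊕ Fin M) K)
    (hG : ∀ j, (G j).totalDegree ≤ k) (hP : ∀ j, (P j).totalDegree ≤ h)
    (hQ : ∀ j, (Q j).totalDegree ≤ h) (S : Finset K) (hS : (-1 : K) ∉ S) (hS1 : S.Nonempty)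
    (A : Finset (Fin N ⊕ Fin M → K)) (h0 : ∀ z ∈ A, ∀ j, eval z (G j) = 0)
    (ha : ∀ z ∈ A, ∀ w : Fin N ⊕ Fin M → K, (∀ j, dd (G j) z w = 0) →
      (∀ i, w (Sum.inl i) = 0) → w = 0)
    (hb : ∀ z ∈ A, ∀ w : Fin N ⊕ Fin M → K, (∀ j, dd (G j) z w = 0) →
      (∀ i, dd (P i - Q i) z w = 0) → w = 0)
    (hB : ∀ i, (A.image fun z => z (Sum.inl i)).card ≤ B) :
    Bound S N B (h ^ N * k ^ M) A.card
      (fun r => (A.image fun z i => eval z (P i) + r * eval z (Q i)).card) := by
  classical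
  have hsec := fun (z : Fin N ⊕ Fin M → K) (hz : z ∈ A) => exists_section G z (ha z hz)
  choose! Φ hΦ1 hΦ2 hΦ3 using hsec
  set W : (Fin N ⊕ Fin M → K) → Matrix (Fin n) (Fin N) K := fun z =>
    LinearMap.toMatrix' (ddl (fun l => P l - Q l) z (Φ z)) with hW
  have hWa : ∀ z a l, (W z).mulVec a l = dd (P l - Q l) z (Φ z a) := by
    intro z a l
    have h1 : (W z).mulVec a = ddl (fun l => P l - Q l) z (Φ z) a := by
      rw [hW]
      show (LinearMap.toMatrix' (ddl (fun l => P l - Q l) z (Φ z))).mulVec a = _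
      rw [← Matrix.toLin'_apply, Matrix.toLin'_toMatrix']
    rw [h1]
    rfl
  obtain ⟨L, hL⟩ := exists_proj A W (fun z hz a h => by
    have h1 := hb z hz (Φ z a) (hΦ2 z hz a) (fun l => by
      rw [← hWa z a l, h]
      rfl)
    funext i
    rw [← hΦ1 z hz a i, h1]
    rfl)
  have hdeg : ∀ R : Fin n → MvPolynomial (Fin N ⊕ Fin M) K, (∀ j, (R j).totalDegree ≤ h) →
      ∀ i, (∑ l, C (L i l) * R l).totalDegree ≤ h := by
    intro R hR i
    refine totalDegree_finsetSum_le fun l _ => ?_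
    refine (totalDegree_mul _ _).trans ?_
    rw [totalDegree_C, zero_add]
    exact hR l
  have hmain := card_le_sq hh hk hB1 G (fun i => ∑ l, C (L i l) * P l)
    (fun i => ∑ l, C (L i l) * Q l) hG (hdeg P hP) (hdeg Q hQ) S hS hS1 A h0 ha
    (fun z hz w hw1 hw2 => by
      have hw := hΦ3 z hz w hw1
      set a : Fin N → K := fun i => w (Sum.inl i) with ha1
      have h1 : (L * W z).mulVec a = 0 := by
        funext i
        rw [← mulVec_mulVec]
        show ∑ l, L i l * (W z).mulVec a l = 0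
        rw [← hw2 i, ← sum_sub_distrib, dd_sum]
        refine sum_congr rfl fun l _ => ?_
        rw [hWa, ← hw, ← mul_sub, dd_C_mul]
      have h2 : a = 0 := by
        by_contra hne
        exact hL z hz (exists_mulVec_eq_zero_iff.1 ⟨a, hne, h1⟩)
      rw [hw, h2, map_zero]) hB
  have h4 := hmain.mono 1 (a := A.card)
    (π := fun r => (A.image fun z i => eval z (P i) + r * eval z (Q i)).card) (by rw [one_mul])
    (fun r _ => by
      have h3 : (A.image fun z (i : Fin N) => eval z (∑ l, C (L i l) * P l) +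
          r * eval z (∑ l, C (L i l) * Q l)) =
          (A.image fun z i => eval z (P i) + r * eval z (Q i)).image L.mulVec := by
        rw [image_image]
        refine image_congr fun z _ => ?_
        funext i
        show _ = ∑ l, L i l * (eval z (P l) + r * eval z (Q l))
        rw [map_sum, map_sum, mul_sum, ← sum_add_distrib]
        refine sum_congr rfl fun l _ => ?_
        rw [map_mul, map_mul, eval_C]
        ring
      rw [h3]
      exact card_image_le)
  rwa [one_mul] at h4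

end Pool.Agent.V7H27.AK
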